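import Pool.Agent.H7.AE.Win

/-! The sharp bound for the test functions which are averages of windows. -/

open MeasureTheory Filter Topology Real
open scoped ENNReal

namespace Pool.Agent.H7.AE

open Pool.Agent.H7.PS Pool.Agent.H7.LH Pool.Agent.H7.AC Pool.Agent.H7.FF Pool.Agent.Y744 Pool.Agent.Y744.ANC

/-- the length of the part of the window beyond `1` -/
noncomputable def Uw (ℓ c : ℝ) : ℝ := c + ℓ / 2 - max 1 (c - ℓ / 2)

lemma Uw_cont (ℓ : ℝ) : Continuous (Uw ℓ) := by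
  unfold Uw
  fun_prop

lemma Uw_nonneg {ℓ c : ℝ} (hℓ : 0 < ℓ) (hc : 1 - ℓ / 2 ≤ c) : 0 ≤ Uw ℓ c := by
  unfold Uw
  have : max 1 (c - ℓ / 2) ≤ c + ℓ / 2 := max_le (by linarith) (by linarith)
  linarith

/-- the mass of the part of the window beyond `1` -/
noncomputable def W2 (ℓ c T : ℝ) : ℝ≥0∞ :=
  ∫⁻ v in Set.Ioc ((c - ℓ / 2) * Real.log T) ((c + ℓ / 2) * Real.log T),
    (Set.Ioi (Real.log T)).indicator (fun v => qd (v, Real.log (1 + 1 / T))) v

lemma W2_meas (ℓ T : ℝ) : Measurable fun c => W2 ℓ c T := by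
  have hq : Measurable ((Set.Ioi (Real.log T)).indicator
      fun v => qd (v, Real.log (1 + 1 / T))) :=
    (qd_meas.comp (measurable_id.prodMk measurable_const)).indicator measurableSet_Ioi
  exact win_meas (ℓ := ℓ) (L := Real.log T) hq

lemma W2_le {ℓ c T : ℝ} (hT : 1 < T) : W2 ℓ c T ≤ Wn (max 1 (c - ℓ / 2)) (c + ℓ / 2) T := by
  have hL : 0 < Real.log T := Real.log_pos hT
  unfold W2 Wn
  rw [← lintegral_indicator measurableSet_Ioc, ← lintegral_indicator measurableSet_Ioc]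
  refine lintegral_mono fun v => ?_
  by_cases h1 : v ∈ Set.Ioc ((c - ℓ / 2) * Real.log T) ((c + ℓ / 2) * Real.log T)
  · rw [Set.indicator_of_mem h1]
    by_cases h2 : v ∈ Set.Ioi (Real.log T)
    · rw [Set.indicator_of_mem h2, Set.indicator_of_mem]
      refine ⟨?_, h1.2⟩
      rw [max_mul_of_nonneg _ _ hL.le, one_mul]
      exact max_lt h2 h1.1
    · rw [Set.indicator_of_notMem h2]
      exact zero_le
  · rw [Set.indicator_of_notMem h1]
    exact zero_le

lemma fat {ℓ : ℝ} (hℓ : 0 < ℓ) (h : HP ℓ) {κ M : ℝ} {ψ : ℝ → ℝ}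
    (hψ : Continuous ψ) (hψ0 : ∀ x, 0 ≤ ψ x) (hψM : ∀ x, ψ x ≤ M) (hκ : 1 ≤ κ)
    {ε : ℝ} (hε : 0 < ε) : ∀ᶠ T : ℝ in atTop,
    ∫⁻ c in Set.Ioc (1 - ℓ / 2) κ, ENNReal.ofReal (ψ c) * W2 ℓ c T ≤
      ENNReal.ofReal (((∫ c in Set.Ioc (1 - ℓ / 2) κ, ψ c * Uw ℓ c) + ε) *
        (Real.log T ^ 2 / T)) := by
  have hM : 0 ≤ M := (hψ0 0).trans (hψM 0)
  obtain ⟨C, hC, hCw⟩ := h.toRW hℓ (κ + ℓ) (by linarith)
  obtain ⟨I, hI⟩ : ∃ I, I = ∫ c in Set.Ioc (1 - ℓ / 2) κ, ψ c * Uw ℓ c := ⟨_, rfl⟩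
  rw [← hI]
  have hψV0 : ∀ c, 1 - ℓ / 2 < c → 0 ≤ ψ c * Uw ℓ c := fun c hc =>
    mul_nonneg (hψ0 c) (Uw_nonneg hℓ hc.le)
  have hI0 : 0 ≤ I := by
    rw [hI]
    exact setIntegral_nonneg measurableSet_Ioc fun c hc => hψV0 c hc.1
  obtain ⟨m, hm⟩ : ∃ m, m = κ - (1 - ℓ / 2) := ⟨_, rfl⟩
  have hm0 : 0 ≤ m := by rw [hm]; linarith
  obtain ⟨e, he⟩ : ∃ e, e = ε / (2 * (M * m + 1)) := ⟨_, rfl⟩
  have he0 : 0 < e := by rw [he]; positivity
  have hMe : e * (M * m) ≤ ε / 2 := by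
    rw [he, div_mul_eq_mul_div, div_le_iff₀ (by positivity)]
    nlinarith [mul_nonneg hM hm0]
  by_contra hcon
  rw [not_eventually] at hcon
  obtain ⟨t, ht, hp⟩ := exists_seq_forall_of_frequently
    (hcon.and_eventually (hCw.and (eventually_gt_atTop 1)))
  obtain ⟨Q, hQ⟩ : ∃ Q : ℕ → ℝ, Q = fun n => Real.log (t n) ^ 2 / t n := ⟨_, rfl⟩
  have hQn : ∀ n, Real.log (t n) ^ 2 / t n = Q n := fun n => by rw [hQ]
  have hQ0 : ∀ n, 0 < Q n := fun n => by
    have h1 := (hp n).2.2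
    have h2 := Real.log_pos h1
    rw [hQ]
    positivity
  obtain ⟨f, hf⟩ : ∃ f : ℕ → ℝ → ℝ≥0∞, f = fun n c => ENNReal.ofReal (ψ c) *
      (ENNReal.ofReal (Q n)⁻¹ * W2 ℓ c (t n)) := ⟨_, rfl⟩
  have hfm : ∀ n, Measurable (f n) := by
    intro n
    rw [hf]
    exact hψ.measurable.ennreal_ofReal.mul ((W2_meas ℓ (t n)).const_mul _)
  have hfb : ∀ n c, 1 - ℓ / 2 < c → c ≤ κ → f n c ≤ ENNReal.ofReal (M * C) := by
    intro n c hc hcκ
    rw [hf]
    have h2 := (hp n).2.1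
    have h3 := Real.log_pos (hp n).2.2
    have h4 : W2 ℓ c (t n) ≤ Wn 0 (κ + ℓ) (t n) := by
      refine (W2_le (hp n).2.2).trans ?_
      unfold Wn
      refine lintegral_mono_set (Set.Ioc_subset_Ioc ?_ ?_)
      · exact mul_le_mul_of_nonneg_right (le_trans (by norm_num) (le_max_left _ _)) h3.le
      · exact mul_le_mul_of_nonneg_right (by linarith) h3.le
    rw [hQn] at h2
    calc ENNReal.ofReal (ψ c) * (ENNReal.ofReal (Q n)⁻¹ * W2 ℓ c (t n)) ≤
        ENNReal.ofReal M * (ENNReal.ofReal (Q n)⁻¹ * ENNReal.ofReal (C * Q n)) := by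
          gcongr
          · exact hψM c
          · exact h4.trans h2
      _ = ENNReal.ofReal (M * C) := by
          rw [← ENNReal.ofReal_mul (inv_nonneg.2 (hQ0 n).le), ← ENNReal.ofReal_mul hM]
          congr 1
          have := (hQ0 n).ne'
          field_simp
  have hlim := limsup_lintegral_le (μ := volume.restrict (Set.Ioc (1 - ℓ / 2) κ)) (f := f)
    (fun _ => ENNReal.ofReal (M * C)) hfm (fun n => by
      rw [EventuallyLE, ae_restrict_iff' measurableSet_Ioc]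
      exact Eventually.of_forall fun c hc => hfb n c hc.1 hc.2) (by
      rw [lintegral_const]
      exact ENNReal.mul_ne_top ENNReal.ofReal_ne_top (by simp))
  -- from below
  have hlow : ENNReal.ofReal (I + ε) ≤
      limsup (fun n => ∫⁻ c in Set.Ioc (1 - ℓ / 2) κ, f n c) atTop := by
    have h1 : ∀ n, ENNReal.ofReal (I + ε) ≤ ∫⁻ c in Set.Ioc (1 - ℓ / 2) κ, f n c := by
      intro n
      have h2 := (not_le.1 (hp n).1).le
      rw [hQn] at h2
      have h3 : ∫⁻ c in Set.Ioc (1 - ℓ / 2) κ, f n c = ENNReal.ofReal (Q n)⁻¹ *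
          ∫⁻ c in Set.Ioc (1 - ℓ / 2) κ, ENNReal.ofReal (ψ c) * W2 ℓ c (t n) := by
        rw [← lintegral_const_mul' _ _ ENNReal.ofReal_ne_top, hf]
        refine lintegral_congr fun c => ?_
        show _ * (_ * _) = _ * (_ * _)
        ring
      rw [h3]
      calc ENNReal.ofReal (I + ε) = ENNReal.ofReal (Q n)⁻¹ * ENNReal.ofReal ((I + ε) * Q n) := by
            rw [← ENNReal.ofReal_mul (inv_nonneg.2 (hQ0 n).le)]
            congr 1
            have := (hQ0 n).ne'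
            field_simp
        _ ≤ _ := mul_le_mul_right h2 _
    calc ENNReal.ofReal (I + ε) = limsup (fun _ : ℕ => ENNReal.ofReal (I + ε)) atTop :=
          (limsup_const _).symm
      _ ≤ _ := limsup_le_limsup (Eventually.of_forall h1)
  -- from above
  have hup : ∀ c, 1 - ℓ / 2 < c → c ≤ κ → limsup (fun n => f n c) atTop ≤
      ENNReal.ofReal (ψ c * (Uw ℓ c + e)) := by
    intro c hc hcκ
    refine limsup_le_of_le (h := ?_)
    have h3 := h (max 1 (c - ℓ / 2)) (c + ℓ / 2) (le_max_left _ _)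
      (max_lt (by linarith) (by linarith)) (by
        rcases le_total 1 (c - ℓ / 2) with h1 | h1
        · left
          rw [max_eq_right h1]
          ring
        · right
          exact ⟨max_eq_left h1, by linarith⟩) e he0
    filter_upwards [ht.eventually h3] with n h4
    rw [hQn] at h4
    have h5 : 0 ≤ Uw ℓ c := Uw_nonneg hℓ hc.le
    rw [hf]
    calc ENNReal.ofReal (ψ c) * (ENNReal.ofReal (Q n)⁻¹ * W2 ℓ c (t n)) ≤
        ENNReal.ofReal (ψ c) * (ENNReal.ofReal (Q n)⁻¹ *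
          ENNReal.ofReal ((Uw ℓ c + e) * Q n)) := by
          gcongr
          exact (W2_le (hp n).2.2).trans h4
      _ = ENNReal.ofReal (ψ c * (Uw ℓ c + e)) := by
          rw [← ENNReal.ofReal_mul (inv_nonneg.2 (hQ0 n).le), ← ENNReal.ofReal_mul (hψ0 c)]
          congr 1
          have := (hQ0 n).ne'
          field_simp
  have hcV := Uw_cont ℓ
  have hint1 : IntegrableOn (fun c => ψ c * Uw ℓ c) (Set.Ioc (1 - ℓ / 2) κ) :=
    (hψ.mul hcV).integrableOn_Icc.mono_set Set.Ioc_subset_Icc_self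
  have hint2 : IntegrableOn (fun c => ψ c * e) (Set.Ioc (1 - ℓ / 2) κ) :=
    (hψ.mul continuous_const).integrableOn_Icc.mono_set Set.Ioc_subset_Icc_self
  have hg : ∫⁻ c in Set.Ioc (1 - ℓ / 2) κ, limsup (fun n => f n c) atTop ≤
      ENNReal.ofReal (I + ε / 2) := by
    have h1 : ∫⁻ c in Set.Ioc (1 - ℓ / 2) κ, limsup (fun n => f n c) atTop ≤
        ∫⁻ c in Set.Ioc (1 - ℓ / 2) κ, ENNReal.ofReal (ψ c * (Uw ℓ c + e)) :=
      setLIntegral_mono' measurableSet_Ioc fun c hc => hup c hc.1 hc.2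
    refine h1.trans ?_
    rw [← ofReal_integral_eq_lintegral_ofReal]
    · refine ENNReal.ofReal_le_ofReal ?_
      have e1 : ∫ c in Set.Ioc (1 - ℓ / 2) κ, ψ c * (Uw ℓ c + e) =
          (∫ c in Set.Ioc (1 - ℓ / 2) κ, ψ c * Uw ℓ c) +
            ∫ c in Set.Ioc (1 - ℓ / 2) κ, ψ c * e := by
        rw [← integral_add hint1 hint2]
        simp only [mul_add]
      rw [e1]
      have h3 : ∫ c in Set.Ioc (1 - ℓ / 2) κ, ψ c * e ≤ ∫ _ in Set.Ioc (1 - ℓ / 2) κ, M * e :=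
        setIntegral_mono_on hint2 (integrableOn_const (by simp) enorm_ne_top) measurableSet_Ioc
          fun c _ => mul_le_mul_of_nonneg_right (hψM c) he0.le
      rw [setIntegral_const, smul_eq_mul, Measure.real, Real.volume_Ioc, ← hm,
        ENNReal.toReal_ofReal hm0] at h3
      have h4 : m * (M * e) = e * (M * m) := by ring
      rw [← hI]
      linarith
    · refine (hint1.add hint2).congr (Eventually.of_forall fun c => ?_)
      show ψ c * Uw ℓ c + ψ c * e = _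
      ring
    · rw [EventuallyLE, ae_restrict_iff' measurableSet_Ioc]
      refine Eventually.of_forall fun c hc => ?_
      show 0 ≤ ψ c * (Uw ℓ c + e)
      have := hψV0 c hc.1
      have := mul_nonneg (hψ0 c) he0.le
      linarith
  have hfin := (hlow.trans hlim).trans hg
  have := (ENNReal.ofReal_le_ofReal_iff (by linarith)).1 hfin
  linarith

/-- the test function -/
noncomputable def Kc (ℓ η : ℝ) (ψ : ℝ → ℝ) (α : ℝ) : ℝ := bx ℓ ψ α - bx ℓ ψ α * chi η α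

lemma bx_nn {ℓ : ℝ} (hℓ : 0 < ℓ) {ψ : ℝ → ℝ} (hψ0 : ∀ x, 0 ≤ ψ x) (x : ℝ) : 0 ≤ bx ℓ ψ x :=
  intervalIntegral.integral_nonneg (by linarith) fun y _ => hψ0 y

lemma Kc_nn {ℓ η : ℝ} (hℓ : 0 < ℓ) {ψ : ℝ → ℝ} (hψ0 : ∀ x, 0 ≤ ψ x) (x : ℝ) : 0 ≤ Kc ℓ η ψ x := by
  unfold Kc
  have h1 := bx_nn hℓ hψ0 x
  have h2 := chi_le η x
  nlinarith

lemma Kc_le {ℓ η : ℝ} (hℓ : 0 < ℓ) {ψ : ℝ → ℝ} (hψ0 : ∀ x, 0 ≤ ψ x) (x : ℝ) :
    Kc ℓ η ψ x ≤ bx ℓ ψ x := by
  unfold Kc
  have h1 := bx_nn hℓ hψ0 x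
  have h2 := chi_nonneg η x
  nlinarith

lemma Kc_zero {ℓ η : ℝ} (hη : 0 < η) (hη1 : η < 1 / 4) {ψ : ℝ → ℝ} {x : ℝ}
    (hx : |x| ≤ 1 - 2 * η) : Kc ℓ η ψ x = 0 := by
  unfold Kc
  rw [chi_one hη hη1 hx]
  ring

lemma Kc_one {ℓ η : ℝ} (hη : 0 < η) (hη1 : η < 1 / 4) {ψ : ℝ → ℝ} {x : ℝ}
    (hx : 1 ≤ |x|) : Kc ℓ η ψ x = bx ℓ ψ x := by
  unfold Kc
  rw [chi_zero hη hη1 (by linarith)]
  ring

/-- the sharp bound for an average of windows -/
lemma sb_bx {ℓ : ℝ} (hℓ : 0 < ℓ) (h : HP ℓ) {κ M η : ℝ} {ψ : ℝ → ℝ}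
    (hψ : Continuous ψ) (hψ0 : ∀ x, 0 ≤ ψ x) (hψM : ∀ x, ψ x ≤ M) (hκ : 1 ≤ κ)
    (hη : 0 < η) (hη1 : η < 1 / 4) (hz2 : ∀ x, κ < |x| → ψ x = 0) :
    SB (κ + ℓ / 2) (Kc ℓ η ψ) ((∫ c in Set.Ioc (1 - ℓ / 2) κ, ψ c * Uw ℓ c) +
      ℓ * M * (2 * cC * (2 * η))) := by
  intro ε hε
  have hcC := cC_one
  have hM : 0 ≤ M := (hψ0 0).trans (hψM 0)
  obtain ⟨I, hI⟩ : ∃ I, I = ∫ c in Set.Ioc (1 - ℓ / 2) κ, ψ c * Uw ℓ c := ⟨_, rfl⟩
  have hfat := fat hℓ h hψ hψ0 hψM hκ (show 0 < ε / 3 by positivity)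
  rw [← hI] at hfat ⊢
  have hI0 : 0 ≤ I := by
    rw [hI]
    exact setIntegral_nonneg measurableSet_Ioc fun c hc =>
      mul_nonneg (hψ0 c) (Uw_nonneg hℓ hc.1.le)
  obtain ⟨b, hb⟩ : ∃ b, b = 2 * (κ + ℓ / 2 + 1) := ⟨_, rfl⟩
  obtain ⟨C2, hC2, hw⟩ := h.toRW hℓ b (by rw [hb]; linarith)
  obtain ⟨m, hm⟩ : ∃ m, m = ℓ * M := ⟨_, rfl⟩
  have hm0 : 0 ≤ m := by rw [hm]; positivity
  obtain ⟨e, he⟩ : ∃ e, e = ε / (3 * (m * (2 * cC) + 1)) := ⟨_, rfl⟩
  have he0 : 0 < e := by rw [he]; positivity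
  have hme : m * (2 * cC) * e ≤ ε / 3 := by
    rw [he, mul_div_assoc', div_le_div_iff₀ (by positivity) (by norm_num)]
    nlinarith
  rw [← hm]
  refine ⟨ε / (3 * (C2 + 1)), by positivity, ?_⟩
  filter_upwards [hfat, hw, near (1 - 2 * η) 1 (by linarith) (by linarith) le_rfl e he0,
    eventually_gt_atTop 1] with T h1 h2 h3 hT
  have hL : 0 < Real.log T := Real.log_pos hT
  have hTp : 0 < T := by linarith
  have hQ : 0 < Real.log T ^ 2 / T := by positivity
  rw [← hb]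
  have hq : Measurable fun v => qd (v, Real.log (1 + 1 / T)) :=
    qd_meas.comp (measurable_id.prodMk measurable_const)
  have hK0 := bx_nn hℓ hψ0
  have hη0 : 0 ≤ ε / (3 * (C2 + 1)) := by positivity
  obtain ⟨η', hη'⟩ : ∃ η', η' = ε / (3 * (C2 + 1)) := ⟨_, rfl⟩
  rw [← hη'] at hη0 ⊢
  have hbm : ∀ x, bx ℓ ψ x ≤ m := by
    intro x
    unfold bx
    have h4 : ∫ t in (x - ℓ / 2)..(x + ℓ / 2), ψ t ≤ ∫ _ in (x - ℓ / 2)..(x + ℓ / 2), M :=
      intervalIntegral.integral_mono_on (by linarith) (hψ.intervalIntegrable _ _) (by simp)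
        fun t _ => hψM t
    rw [intervalIntegral.integral_const, smul_eq_mul] at h4
    rw [hm]
    have e1 : x + ℓ / 2 - (x - ℓ / 2) = ℓ := by ring
    rwa [e1] at h4
  -- the three parts
  have p0 : ∫⁻ v in Set.Ioc 0 (b * Real.log T), ENNReal.ofReal (Kc ℓ η ψ (v / Real.log T) + η') *
        qd (v, Real.log (1 + 1 / T)) ≤
      ENNReal.ofReal η' * Wn 0 b T + ENNReal.ofReal m * Wn (1 - 2 * η) 1 T +
      ∫⁻ v, ENNReal.ofReal (bx ℓ ψ (v / Real.log T)) *
        (Set.Ioi (Real.log T)).indicator (fun v => qd (v, Real.log (1 + 1 / T))) v := by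
    unfold Wn
    rw [← lintegral_const_mul' _ _ ENNReal.ofReal_ne_top,
      ← lintegral_const_mul' _ _ ENNReal.ofReal_ne_top, ← lintegral_indicator measurableSet_Ioc,
      ← lintegral_indicator measurableSet_Ioc, ← lintegral_indicator measurableSet_Ioc,
      ← lintegral_add_left ((hq.const_mul _).indicator measurableSet_Ioc)]
    have hmm : Measurable fun a : ℝ => (Set.Ioc (0 * Real.log T) (b * Real.log T)).indicator
        (fun x => ENNReal.ofReal η' * qd (x, Real.log (1 + 1 / T))) a +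
        (Set.Ioc ((1 - 2 * η) * Real.log T) (1 * Real.log T)).indicator
        (fun a => ENNReal.ofReal m * qd (a, Real.log (1 + 1 / T))) a :=
      ((hq.const_mul _).indicator measurableSet_Ioc).add
        ((hq.const_mul _).indicator measurableSet_Ioc)
    refine le_trans ?_ (le_of_eq (lintegral_add_left hmm _))
    refine lintegral_mono fun v => ?_
    by_cases hv : v ∈ Set.Ioc 0 (b * Real.log T)
    · rw [Set.indicator_of_mem hv, Set.indicator_of_mem (show v ∈ Set.Ioc (0 * Real.log T)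
        (b * Real.log T) by rw [zero_mul]; exact hv),
        ENNReal.ofReal_add (Kc_nn hℓ hψ0 _) hη0, add_mul]
      have hv0 : 0 < v / Real.log T := div_pos hv.1 hL
      rcases le_or_gt (v / Real.log T) (1 - 2 * η) with h5 | h5
      · rw [Kc_zero hη hη1 (by rwa [abs_of_pos hv0]), ENNReal.ofReal_zero, zero_mul, zero_add,
          add_assoc]
        exact le_self_add
      · rcases le_or_gt (v / Real.log T) 1 with h6 | h6
        · rw [Set.indicator_of_mem (show v ∈ Set.Ioc ((1 - 2 * η) * Real.log T)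
            (1 * Real.log T) from ⟨(lt_div_iff₀ hL).1 h5, (div_le_iff₀ hL).1 h6⟩), add_comm]
          refine le_trans ?_ le_self_add
          refine add_le_add le_rfl (mul_le_mul_left (ENNReal.ofReal_le_ofReal ?_) _)
          exact (Kc_le hℓ hψ0 _).trans (hbm _)
        · have h7 : v ∈ Set.Ioi (Real.log T) := by
            have := (lt_div_iff₀ hL).1 h6
            rwa [one_mul] at this
          rw [Set.indicator_of_mem h7, Kc_one hη hη1 (by rw [abs_of_pos hv0]; exact h6.le),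
            add_comm]
          exact add_le_add le_self_add le_rfl
    · rw [Set.indicator_of_notMem hv]
      exact zero_le
  have p1 : ∫⁻ v, ENNReal.ofReal (bx ℓ ψ (v / Real.log T)) *
        (Set.Ioi (Real.log T)).indicator (fun v => qd (v, Real.log (1 + 1 / T))) v ≤
      ∫⁻ c in Set.Ioc (1 - ℓ / 2) κ, ENNReal.ofReal (ψ c) * W2 ℓ c T := by
    rw [ton hL hℓ hψ hψ0 (hq.indicator measurableSet_Ioi), ← lintegral_indicator measurableSet_Ioc]
    refine lintegral_mono fun c => ?_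
    by_cases hc : c ∈ Set.Ioc (1 - ℓ / 2) κ
    · rw [Set.indicator_of_mem hc]
      exact le_rfl
    · rw [Set.indicator_of_notMem hc]
      by_cases h4 : κ < c
      · rw [hz2 c (h4.trans_le (le_abs_self c)), ENNReal.ofReal_zero, zero_mul]
      · have h5 : c ≤ 1 - ℓ / 2 := by
          by_contra hcon
          exact hc ⟨not_le.1 hcon, not_lt.1 h4⟩
        have h6 : ∫⁻ v in Set.Ioc ((c - ℓ / 2) * Real.log T) ((c + ℓ / 2) * Real.log T),
            (Set.Ioi (Real.log T)).indicator (fun v => qd (v, Real.log (1 + 1 / T))) v = 0 := by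
          rw [← lintegral_indicator measurableSet_Ioc]
          refine (lintegral_congr fun v => ?_).trans lintegral_zero
          by_cases hv : v ∈ Set.Ioc ((c - ℓ / 2) * Real.log T) ((c + ℓ / 2) * Real.log T)
          · rw [Set.indicator_of_mem hv, Set.indicator_of_notMem]
            intro h7
            have h8 : Real.log T < v := h7
            have h9 : (c + ℓ / 2) * Real.log T ≤ 1 * Real.log T :=
              mul_le_mul_of_nonneg_right (by linarith) hL.le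
            linarith [hv.2]
          · rw [Set.indicator_of_notMem hv]
        rw [h6, mul_zero]
  have p2 : ENNReal.ofReal η' * Wn 0 b T ≤ ENNReal.ofReal (ε / 3 * (Real.log T ^ 2 / T)) := by
    refine (mul_le_mul_right h2 _).trans ?_
    rw [← ENNReal.ofReal_mul hη0, ← mul_assoc]
    refine ENNReal.ofReal_le_ofReal (mul_le_mul_of_nonneg_right ?_ hQ.le)
    rw [hη', div_mul_eq_mul_div, div_le_iff₀ (by positivity)]
    nlinarith
  have p3 : ENNReal.ofReal m * Wn (1 - 2 * η) 1 T ≤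
      ENNReal.ofReal ((m * (2 * cC * (2 * η)) + ε / 3) * (Real.log T ^ 2 / T)) := by
    refine (mul_le_mul_right h3 _).trans ?_
    rw [← ENNReal.ofReal_mul hm0, ← mul_assoc]
    refine ENNReal.ofReal_le_ofReal (mul_le_mul_of_nonneg_right ?_ hQ.le)
    have e1 : m * (2 * cC * (1 - (1 - 2 * η) + e)) = m * (2 * cC * (2 * η)) + m * (2 * cC) * e := by
      ring
    rw [e1]
    linarith
  refine p0.trans ((add_le_add (add_le_add p2 p3) (p1.trans h1)).trans (le_of_eq ?_))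
  rw [← ENNReal.ofReal_add (by positivity) (by positivity),
    ← ENNReal.ofReal_add (by positivity) (by positivity)]
  congr 1
  ring

/-- the value of the bound -/
lemma val_bx {ℓ η : ℝ} (hℓ : 0 < ℓ) (hη : 0 < η) (hη1 : η < 1 / 4) {κ : ℝ} {ψ : ℝ → ℝ}
    (hψ : TK κ ψ) (hψ0 : ∀ x, 0 ≤ ψ x) (hK : TK (κ + ℓ / 2) (Kc ℓ η ψ)) :
    ∫ c in Set.Ioc (1 - ℓ / 2) κ, ψ c * Uw ℓ c ≤ (∫ α, Kc ℓ η ψ α * min |α| 1) / 2 := by
  have hbK := bx_TK hψ hℓ
  have hK0 := bx_nn hℓ hψ0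
  have hKn := Kc_nn (η := η) hℓ hψ0
  have hc1 : Continuous fun α : ℝ => Kc ℓ η ψ α * min |α| 1 := by
    have := hK.cont
    fun_prop
  have hi : Integrable fun α : ℝ => Kc ℓ η ψ α * min |α| 1 :=
    hc1.integrable_of_hasCompactSupport hK.hcs.mul_right
  have e1 : ∫ α, Kc ℓ η ψ α * min |α| 1 =
      2 * ∫ α in Set.Ioi (0 : ℝ), Kc ℓ η ψ α * min |α| 1 := by
    have h1 : ∫ α, (fun x => Kc ℓ η ψ x * min |x| 1) |α| =
        2 * ∫ α in Set.Ioi (0 : ℝ), (fun x => Kc ℓ η ψ x * min |x| 1) α :=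
      integral_comp_abs (f := fun x => Kc ℓ η ψ x * min |x| 1)
    rw [← h1]
    refine integral_congr_ae (Eventually.of_forall fun α => ?_)
    show Kc ℓ η ψ α * min |α| 1 = Kc ℓ η ψ |α| * min |(|α|)| 1
    rw [abs_abs]
    rcases abs_choice α with h | h
    · rw [h]
    · rw [h, hK.even]
  rw [e1, mul_div_cancel_left₀ _ (by norm_num : (2 : ℝ) ≠ 0)]
  have e0 : ∫ α in Set.Ioi (1 : ℝ), bx ℓ ψ α ≤
      ∫ α in Set.Ioi (0 : ℝ), Kc ℓ η ψ α * min |α| 1 := by
    rw [← integral_indicator measurableSet_Ioi, ← integral_indicator measurableSet_Ioi]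
    refine integral_mono (hbK.integrable.indicator measurableSet_Ioi)
      (hi.indicator measurableSet_Ioi) fun α => ?_
    by_cases h1 : α ∈ Set.Ioi (1 : ℝ)
    · have h2 : (1 : ℝ) < α := h1
      have h3 : α ∈ Set.Ioi (0 : ℝ) := lt_trans one_pos h2
      rw [Set.indicator_of_mem h1, Set.indicator_of_mem h3]
      have h4 : |α| = α := abs_of_pos h3
      rw [h4, min_eq_right h2.le, mul_one, Kc_one hη hη1 (by rw [h4]; exact h2.le)]
    · rw [Set.indicator_of_notMem h1]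
      exact Set.indicator_nonneg (fun x _ => mul_nonneg (hKn x)
        (le_min (abs_nonneg x) (by norm_num))) α
  refine le_trans ?_ e0
  have hcV := Uw_cont ℓ
  have hint1 : IntegrableOn (fun c => ψ c * Uw ℓ c) (Set.Ioc (1 - ℓ / 2) κ) :=
    (hψ.cont.mul hcV).integrableOn_Icc.mono_set Set.Ioc_subset_Icc_self
  have hq : Measurable ((Set.Ioi (1 : ℝ)).indicator fun _ : ℝ => (1 : ℝ≥0∞)) :=
    measurable_const.indicator measurableSet_Ioi
  have ht := ton (L := 1) one_pos hℓ hψ.cont hψ0 hq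
  have hn2 : 0 ≤ ∫ α in Set.Ioi (1 : ℝ), bx ℓ ψ α := integral_nonneg fun α => hK0 α
  refine (ENNReal.ofReal_le_ofReal_iff hn2).1 ?_
  have e2 : ENNReal.ofReal (∫ α in Set.Ioi (1 : ℝ), bx ℓ ψ α) =
      ∫⁻ v, ENNReal.ofReal (bx ℓ ψ (v / 1)) *
        ((Set.Ioi (1 : ℝ)).indicator fun _ : ℝ => (1 : ℝ≥0∞)) v := by
    rw [ofReal_integral_eq_lintegral_ofReal hbK.integrable.integrableOn
      (Eventually.of_forall hK0), ← lintegral_indicator measurableSet_Ioi]
    refine lintegral_congr fun v => ?_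
    by_cases hv : v ∈ Set.Ioi (1 : ℝ)
    · rw [Set.indicator_of_mem hv, Set.indicator_of_mem hv, div_one, mul_one]
    · rw [Set.indicator_of_notMem hv, Set.indicator_of_notMem hv, mul_zero]
  rw [e2, ht, ofReal_integral_eq_lintegral_ofReal hint1 (by
    rw [EventuallyLE, ae_restrict_iff' measurableSet_Ioc]
    refine Eventually.of_forall fun c hc => ?_
    exact mul_nonneg (hψ0 c) (Uw_nonneg hℓ hc.1.le)),
    ← lintegral_indicator measurableSet_Ioc]
  refine lintegral_mono fun c => ?_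
  by_cases hc : c ∈ Set.Ioc (1 - ℓ / 2) κ
  · rw [Set.indicator_of_mem hc]
    show ENNReal.ofReal (ψ c * Uw ℓ c) ≤ _
    rw [ENNReal.ofReal_mul (hψ0 c)]
    refine mul_le_mul_right ?_ _
    rw [mul_one, mul_one, ← lintegral_indicator measurableSet_Ioc]
    have h5 : ENNReal.ofReal (Uw ℓ c) =
        ∫⁻ v, (Set.Ioc (max 1 (c - ℓ / 2)) (c + ℓ / 2)).indicator (fun _ => (1 : ℝ≥0∞)) v := by
      rw [lintegral_indicator measurableSet_Ioc, setLIntegral_const, one_mul, Real.volume_Ioc]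
      rfl
    rw [h5]
    refine lintegral_mono fun v => ?_
    by_cases hv : v ∈ Set.Ioc (max 1 (c - ℓ / 2)) (c + ℓ / 2)
    · have h6 := max_lt_iff.1 hv.1
      rw [Set.indicator_of_mem hv, Set.indicator_of_mem (show v ∈ Set.Ioc (c - ℓ / 2) (c + ℓ / 2)
        from ⟨h6.2, hv.2⟩), Set.indicator_of_mem (show v ∈ Set.Ioi (1 : ℝ) from h6.1)]
    · rw [Set.indicator_of_notMem hv]
      exact zero_le
  · rw [Set.indicator_of_notMem hc]
    exact zero_le

end Pool.Agent.H7.AE
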