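import Pool.Agent.H7.AE.Lim
import Pool.Agent.H7.AE.Sbo
import Pool.Agent.H7.FF.Rig

/-! The discrepancy, from the windows of one length. -/

open MeasureTheory Filter Topology Real
open scoped ENNReal ContDiff

namespace Pool.Agent.H7.AE

open H370 TH803TW Pool.Agent.Y744 Pool.Agent.Y744.ANC Pool.Agent.H7.FF Pool.Agent.H7.PS
open Pool.Agent.H7.LH Pool.Agent.H7.AC
open Pool.Agent.Results.MP_103a5c_nt.BohrSetPairs

variable {κ : ℝ} {K : ℝ → ℝ} {g : Ultrafilter ℝ} {B : ℝ → ℝ → ℝ} {C0 : ℝ} {c : ℝ} {ℓ : ℝ}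
  {A' : ℝ → ℝ}

/-- **the abstract rigidity theorem** -/
theorem rigid (hℓ : 0 < ℓ) (hA' : Monotone A') (hneg : ∀ y, y < 0 → A' y = 0)
    (hb : ∀ y, |A' y| ≤ C0 * (1 + y ^ 2)) (h0 : 1 ≤ A' 0)
    (hm : ∀ K, TK (1 / 2) K → Lam A' K = Lam AG K)
    (hpos : ∀ κ K, TK κ K → (∀ y, 0 ≤ ct K y) → 0 ≤ Lam A' K)
    (hS : ∀ κ φ, TK κ φ → Lam A' (bx ℓ φ) = Lam AG (bx ℓ φ)) (x : ℝ) : A' x = AG x := by
  have hEm := dE_meas hA'
  have hEb := dE_bound hb
  have hC0 : 0 ≤ C0 := by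
    have := (abs_nonneg _).trans (hb 0)
    simpa using this
  set H : ℝ → ℝ := fun y => y * dE A' y with hH
  have hHm : Measurable H := measurable_id.mul hEm
  have hHe : ∀ y, H (-y) = H y := by
    intro y
    simp only [hH]
    rw [dE_odd]
    ring
  have hHb : ∀ y, |H y| ≤ (2 * C0 + 4) * (1 + y ^ 2) ^ 2 := by
    intro y
    simp only [hH]
    rw [abs_mul]
    calc |y| * |dE A' y| ≤ (1 + y ^ 2) * ((2 * C0 + 4) * (1 + y ^ 2)) :=
          mul_le_mul (abs_le_one_add_sq y) (hEb y) (abs_nonneg _) (by positivity)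
      _ = (2 * C0 + 4) * (1 + y ^ 2) ^ 2 := by ring
  have hHi : ∀ κ K, TK κ K → Integrable fun y => H y * ct K y := by
    intro κ K hK
    obtain ⟨D, hD0, hD⟩ := hK.decay 3
    refine (integrable_inv_one_add_sq.const_mul ((2 * C0 + 4) * D)).mono'
      (hHm.mul hK.ct_cont.measurable).aestronglyMeasurable (Eventually.of_forall fun y => ?_)
    rw [Real.norm_eq_abs, abs_mul]
    have h1 : 0 < 1 + y ^ 2 := by positivity
    calc |H y| * |ct K y| ≤ ((2 * C0 + 4) * (1 + y ^ 2) ^ 2) * (D / (1 + y ^ 2) ^ 3) :=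
          mul_le_mul (hHb y) (hD y) (abs_nonneg _) (by positivity)
      _ = (2 * C0 + 4) * D * (1 + y ^ 2)⁻¹ := by field_simp
  have hHpos : ∀ κ K, 0 < κ → TK κ K → (∀ y, 0 ≤ ct K y) → 0 ≤ ∫ y, H y * ct K y := by
    intro κ K hκ hK hKp
    have h1 := disc_nonneg hℓ (K2_TK hκ hK) hA'.measurable hb hpos hS (ct_K2_nonneg hκ hK hKp)
    rw [Lam_K2 hκ hK hA' hb hneg] at h1
    simp only [hH]
    linarith
  have hHz : ∀ K, TK (1 / 2) K → ∫ y, H y * ct K y = 0 := by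
    intro K hK
    have h1 := Lam_K2 (by norm_num) hK hA' hb hneg
    rw [hm (K2 K) (K2_TK (by norm_num) hK), sub_self] at h1
    simp only [hH]
    linarith
  obtain ⟨R, hR, _, _, hRp, hR0⟩ := exists_pos2 (κ := 1 / 2) (by norm_num)
  have key : ∀ ε : ℝ, 0 < ε → ε ≤ 1 → ∀ᵐ y, H y * ct R (ε * y) = 0 := by
    intro ε hε hε1
    have h1 := (hR.dil hε).mono (κ' := 1 / 2) (by linarith)
    set Rε : ℝ → ℝ := fun α => ε⁻¹ * R (ε⁻¹ * α) with hRε
    have hct : ∀ y, ct Rε y = ct R (ε * y) := fun y => TK.ct_dil R hε y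
    refine even_zero (h := fun y => H y * ct R (ε * y)) ?_ ?_ ?_ ?_
    · exact hHm.mul (hR.ct_cont.comp (by fun_prop)).measurable
    · refine (hHi _ _ h1).congr (Eventually.of_forall fun y => ?_)
      show H y * ct Rε y = H y * ct R (ε * y)
      rw [hct]
    · intro y
      show H (-y) * ct R (ε * (-y)) = H y * ct R (ε * y)
      rw [hHe, mul_neg, TK.ct_neg]
    · intro s
      set s' : ℝ := s / (2 * π) with hs'
      have hpi := Real.pi_pos
      have hss : 2 * π * s' = s := by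
        rw [hs']
        field_simp
      have h2 := h1.modul s'
      set Ms : ℝ → ℝ := fun α => (Rε (α - s') + Rε (α + s')) / 2 with hMs
      have hcM : ∀ y, ct Ms y = Real.cos (s * y) * ct Rε y := by
        intro y
        rw [hMs, h1.ct_modul s' y, hss]
      have h1' := h1.mono (κ' := 1 / 2 + |s'|) (by linarith [abs_nonneg s'])
      have hp1 := h1'.add h2
      have hp2 := TK_sub h1' h2
      have hz := hHz _ h1
      have hc1 : ∀ y, |Real.cos (s * y)| ≤ 1 := fun y => Real.abs_cos_le_one _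
      have q1 := hHpos _ _ (by positivity) hp1 (fun y => by
        rw [h1'.ct_add h2, hcM, hct]
        have := abs_le.1 (hc1 y)
        nlinarith [hRp (ε * y), this.1])
      have q2 := hHpos _ _ (by positivity) hp2 (fun y => by
        rw [ct_sub h1' h2, hcM, hct]
        have := abs_le.1 (hc1 y)
        nlinarith [hRp (ε * y), this.2])
      have e1 : ∫ y, H y * ct (fun α => Rε α + Ms α) y =
          (∫ y, H y * ct Rε y) + ∫ y, H y * ct Ms y := by
        rw [← integral_add (hHi _ _ h1') (hHi _ _ h2)]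
        refine integral_congr_ae (Eventually.of_forall fun y => ?_)
        show H y * ct (fun α => Rε α + Ms α) y = H y * ct Rε y + H y * ct Ms y
        rw [h1'.ct_add h2]
        ring
      have e2 : ∫ y, H y * ct (fun α => Rε α - Ms α) y =
          (∫ y, H y * ct Rε y) - ∫ y, H y * ct Ms y := by
        rw [← integral_sub (hHi _ _ h1') (hHi _ _ h2)]
        refine integral_congr_ae (Eventually.of_forall fun y => ?_)
        show H y * ct (fun α => Rε α - Ms α) y = H y * ct Rε y - H y * ct Ms y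
        rw [ct_sub h1' h2]
        ring
      rw [e1, hz] at q1
      rw [e2, hz] at q2
      have e3 : ∫ y, H y * ct R (ε * y) * Real.cos (s * y) = ∫ y, H y * ct Ms y := by
        refine integral_congr_ae (Eventually.of_forall fun y => ?_)
        show H y * ct R (ε * y) * Real.cos (s * y) = H y * ct Ms y
        rw [hcM, hct]
        ring
      rw [e3]
      linarith
  -- conclusion
  obtain ⟨δ, hδ, hδ2⟩ := Metric.eventually_nhds_iff.1
    ((hR.ct_cont.continuousAt (x := 0)).eventually_const_lt hR0)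
  have hall : ∀ᵐ y, ∀ n : ℕ, H y * ct R (1 / ((n : ℝ) + 1) * y) = 0 := by
    rw [ae_all_iff]
    intro n
    refine key _ (by positivity) ?_
    rw [div_le_one (by positivity)]
    have : (0 : ℝ) ≤ n := Nat.cast_nonneg n
    linarith
  have hn0 : ∀ᵐ x : ℝ, x ≠ 0 := by
    rw [ae_iff]
    simp
  have hfin : ∀ᵐ y, dE A' y = 0 := by
    filter_upwards [hall, hn0] with y hy hy0
    obtain ⟨n, hn⟩ := exists_nat_gt (|y| / δ)
    have h1 := hy n
    have h2 : 0 < ct R (1 / ((n : ℝ) + 1) * y) := by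
      refine hδ2 ?_
      rw [Real.dist_eq, sub_zero, abs_mul, abs_of_pos (by positivity), one_div,
        inv_mul_lt_iff₀ (by positivity)]
      rw [div_lt_iff₀ hδ] at hn
      linarith
    have h3 := (mul_eq_zero.1 h1).resolve_right h2.ne'
    exact (mul_eq_zero.1 h3).resolve_left hy0
  exact limit_anchored hA' hneg hb h0 hfin x


lemma bx_sub {f k : ℝ → ℝ} (hf : Continuous f) (hk : Continuous k) :
    bx ℓ (fun α => f α - k α) = fun α => bx ℓ f α - bx ℓ k α := by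
  funext x
  unfold bx
  exact intervalIntegral.integral_sub (hf.intervalIntegrable _ _) (hk.intervalIntegrable _ _)

lemma bx_smul (a : ℝ) (f : ℝ → ℝ) : bx ℓ (fun α => a * f α) = fun α => a * bx ℓ f α := by
  funext x
  unfold bx
  exact intervalIntegral.integral_const_mul _ _

lemma Kc_TK (hℓ : 0 < ℓ) {η : ℝ} {ψ : ℝ → ℝ} (hψ : TK κ ψ) : TK (κ + ℓ / 2) (Kc ℓ η ψ) :=
  TK_sub (bx_TK hψ hℓ) (TK_chi (bx_TK hψ hℓ) η)

/-- the discrepancy is at most zero -/
lemma Dc_np (RH : RiemannHypothesis) (hgt : (g : Filter ℝ) ≤ atTop) (h : LD g B C0)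
    (hℓ : 0 < ℓ) (hH : HP ℓ) (hκ : 1 ≤ κ) (hc : 0 < c) {ψ : ℝ → ℝ}
    (hψ : TK κ ψ) (hpos : ∀ x, 0 ≤ ψ x) : Dc B c (bx ℓ ψ) ≤ 0 := by
  obtain ⟨M, hM⟩ := hψ.hcs.exists_bound_of_continuous hψ.cont
  have hM0 : 0 ≤ M := (norm_nonneg _).trans (hM 0)
  have hR := hH.toRW hℓ
  have hpi := Real.pi_pos
  have hcC := cC_one
  have key : ∀ η : ℝ, 0 < η → η < 1 / 4 →
      Dc B c (bx ℓ ψ) ≤ π * c * (ℓ * M * (4 * cC)) * η := by
    intro η hη hη1
    have hbx := bx_TK hψ hℓ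
    have hin := TK_chi' hbx hη hη1
    have hin' := TK_chi hbx η
    have hz := Dc_mont RH hgt h hc hin (by linarith) (by linarith)
    have hK2 := Kc_TK (η := η) hℓ hψ
    have e : Dc B c (Kc ℓ η ψ) = Dc B c (bx ℓ ψ) := by
      have e1 : Kc ℓ η ψ = fun α => bx ℓ ψ α - bx ℓ ψ α * chi η α := rfl
      rw [e1, Dc_sub h hc hbx hin', hz, sub_zero]
    have hpK : ∀ x, 0 ≤ Kc ℓ η ψ x := Kc_nn hℓ hpos
    have hzK : ∀ x, |x| < 1 / 2 → Kc ℓ η ψ x = 0 := fun x hx =>
      Kc_zero hη hη1 (by linarith)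
    have h0 : ∀ x, 0 < x → x < 1 / 2 → Kc ℓ η ψ x = 0 := fun x hx hx2 =>
      hzK x (by rw [abs_of_pos hx]; exact hx2)
    have hS := sb_bx hℓ hH hψ.cont hpos (fun x => (le_abs_self _).trans (hM x)) hκ hη hη1 hψ.supp
    have hval := val_bx hℓ hη hη1 hψ hpos hK2
    obtain ⟨I, hI⟩ : ∃ I, I = (∫ c in Set.Ioc (1 - ℓ / 2) κ, ψ c * Uw ℓ c) +
        ℓ * M * (2 * cC * (2 * η)) := ⟨_, rfl⟩
    rw [← hI] at hS
    have hI0 : 0 ≤ I := by
      rw [hI]
      have h1 : 0 ≤ ∫ c in Set.Ioc (1 - ℓ / 2) κ, ψ c * Uw ℓ c :=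
        setIntegral_nonneg measurableSet_Ioc fun c hc =>
          mul_nonneg (hpos c) (Uw_nonneg hℓ hc.1.le)
      have h2 : 0 ≤ ℓ * M * (2 * cC * (2 * η)) := by positivity
      linarith
    obtain ⟨M', D, hM', hW⟩ := TK_WK hK2 hpK h0
    have hZ := toZK hR hS hI0 hW hM' (by linarith)
    have hup := mix_upper RH hgt h hZ hI0 (by linarith) hK2 hpK h0 hc
    rw [← Lam_Bm h hK2 hc] at hup
    have hAG : Lam AG (Kc ℓ η ψ) = ∫ α, Kc ℓ η ψ α * min |α| 1 := by
      rw [Lam_AG hK2, hzK 0 (by simp), zero_add]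
    rw [← e]
    unfold Dc
    rw [hAG]
    have h1 : I ≤ (∫ α, Kc ℓ η ψ α * min |α| 1) / 2 + ℓ * M * (2 * cC * (2 * η)) := by
      rw [hI]
      linarith
    have h2 := mul_le_mul_of_nonneg_left h1 (show 0 ≤ π * c by positivity)
    have h3 : π * c * ((∫ α, Kc ℓ η ψ α * min |α| 1) / 2 + ℓ * M * (2 * cC * (2 * η))) =
        π / 2 * c * (∫ α, Kc ℓ η ψ α * min |α| 1) + π * c * (ℓ * M * (4 * cC)) * η := by ring
    linarith
  have hlim : Tendsto (fun η : ℝ => π * c * (ℓ * M * (4 * cC)) * η) (𝓝[>] 0)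
      (𝓝 (π * c * (ℓ * M * (4 * cC)) * 0)) :=
    ((by fun_prop : Continuous fun η : ℝ => π * c * (ℓ * M * (4 * cC)) * η).tendsto 0).mono_left
      nhdsWithin_le_nhds
  rw [mul_zero] at hlim
  refine ge_of_tendsto hlim ?_
  filter_upwards [eventually_mem_nhdsWithin, nhdsWithin_le_nhds (Iio_mem_nhds
    (show (0 : ℝ) < 1 / 4 by norm_num))] with η hη hη1
  exact key η hη hη1

lemma Lam_low' (RH : RiemannHypothesis) (hgt : (g : Filter ℝ) ≤ atTop) (h : LD g B C0)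
    (hc : 0 < c) (hS : TK κ K) (hSp : ∀ y, 0 ≤ ct K y) :
    π / 2 * c * ct K 0 ≤ Lam (Bm B c) K := by
  rw [Lam_Bm h hS hc, ← kc_mass hc, ← integral_mul_const]
  refine setIntegral_mono_on ((kci hc).mul_const _) (Lam_kint h hS hc) measurableSet_Ioi
    fun τ hτ => ?_
  rw [mul_assoc]
  exact mul_le_mul_of_nonneg_left (Lam_low RH hgt h hS hSp hτ) (kc_nonneg hc (le_of_lt hτ))

/-- the discrepancy at long test functions -/
lemma Dc_str2 (RH : RiemannHypothesis) (hgt : (g : Filter ℝ) ≤ atTop) (h : LD g B C0)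
    (hℓ : 0 < ℓ) (hc : 0 < c) {φ0 : ℝ → ℝ} (hφ : TK κ φ0) (hp : ∀ x, 0 ≤ ct φ0 x) :
    ∃ M : ℝ, ∀ s : ℝ, 0 < s → -(M / s ^ 2) ≤ Dc B c (bx ℓ (bx ℓ (str φ0 s))) := by
  refine ⟨π / 2 * c * (ℓ ^ 2 * (π ^ 2 / 3 * ∫ v, ct φ0 v * v ^ 2)), fun s hs => ?_⟩
  have hpi := Real.pi_pos
  have hS := str_TK hφ hs
  have hS1 := bx_TK hS hℓ
  have hS2 := bx_TK hS1 hℓ
  have hSp : ∀ y, 0 ≤ ct (str φ0 s) y := fun y => by
    rw [str_ct φ0 hs]
    exact mul_nonneg hs.le (hp _)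
  have hct : ∀ y, ct (bx ℓ (bx ℓ (str φ0 s))) y =
      ℓ ^ 2 * Real.sinc (π * ℓ * y) ^ 2 * ct (str φ0 s) y := fun y => by
    rw [ct_bx hS1 hℓ, ct_bx hS hℓ]
    ring
  have hct0 : ∀ y, 0 ≤ ct (bx ℓ (bx ℓ (str φ0 s))) y := fun y => by
    rw [hct]
    exact mul_nonneg (by positivity) (hSp y)
  have hct1 : ∀ y, ct (bx ℓ (bx ℓ (str φ0 s))) y ≤ ℓ ^ 2 * ct (str φ0 s) y := fun y => by
    rw [hct]
    have h1 : Real.sinc (π * ℓ * y) ^ 2 ≤ 1 :=
      (sq_le_one_iff_abs_le_one _).2 (Real.abs_sinc_le_one _)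
    have h2 : ℓ ^ 2 * Real.sinc (π * ℓ * y) ^ 2 ≤ ℓ ^ 2 * 1 :=
      mul_le_mul_of_nonneg_left h1 (by positivity)
    rw [mul_one] at h2
    exact mul_le_mul_of_nonneg_right h2 (hSp y)
  have h1 := Lam_low' RH hgt h hc hS2 hct0
  obtain ⟨D, hD0, hD⟩ := hφ.decay 2
  have hi : Integrable fun v => ct φ0 v * v ^ 2 := by
    refine (integrable_inv_one_add_sq.const_mul D).mono'
      (hφ.ct_cont.mul (continuous_id.pow 2)).aestronglyMeasurable (Eventually.of_forall fun y => ?_)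
    rw [Real.norm_eq_abs, abs_mul, abs_of_nonneg (sq_nonneg y)]
    have h2 : 0 < 1 + y ^ 2 := by positivity
    calc |ct φ0 y| * y ^ 2 ≤ (D / (1 + y ^ 2) ^ 2) * (1 + y ^ 2) :=
          mul_le_mul (hD y) (by linarith) (by positivity) (by positivity)
      _ = D * (1 + y ^ 2)⁻¹ := by field_simp
  have h2 : Lam AG (bx ℓ (bx ℓ (str φ0 s))) ≤ ct (bx ℓ (bx ℓ (str φ0 s))) 0 +
      ℓ ^ 2 * (π ^ 2 / 3 * ∫ v, ct φ0 v * v ^ 2) / s ^ 2 := by
    rw [Lam_AG0 hS2]
    have h3 : ∫ y, ct (bx ℓ (bx ℓ (str φ0 s))) y * gd y ≤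
        ∫ y, ℓ ^ 2 * (π ^ 2 / 3) * (s⁻¹ * (ct φ0 (s * y) * (s * y) ^ 2)) := by
      refine integral_mono_of_nonneg (Eventually.of_forall fun y => mul_nonneg (hct0 y)
        (gd_nonneg y)) ((hi.comp_mul_left' hs.ne').const_mul s⁻¹ |>.const_mul _)
        (Eventually.of_forall fun y => ?_)
      show ct (bx ℓ (bx ℓ (str φ0 s))) y * gd y ≤
        ℓ ^ 2 * (π ^ 2 / 3) * (s⁻¹ * (ct φ0 (s * y) * (s * y) ^ 2))
      calc ct (bx ℓ (bx ℓ (str φ0 s))) y * gd y ≤
          (ℓ ^ 2 * ct (str φ0 s) y) * (π ^ 2 / 3 * y ^ 2) :=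
            mul_le_mul (hct1 y) (gd_sq y) (gd_nonneg y) (mul_nonneg (by positivity) (hSp y))
        _ = _ := by
            rw [str_ct φ0 hs]
            field_simp
    have h4 : ∫ y, ℓ ^ 2 * (π ^ 2 / 3) * (s⁻¹ * (ct φ0 (s * y) * (s * y) ^ 2)) =
        ℓ ^ 2 * (π ^ 2 / 3 * ∫ v, ct φ0 v * v ^ 2) / s ^ 2 := by
      rw [integral_const_mul, integral_const_mul]
      have h5 := Measure.integral_comp_mul_left (fun v => ct φ0 v * v ^ 2) s
      rw [h5, smul_eq_mul, abs_of_pos (inv_pos.2 hs)]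
      field_simp
    linarith
  unfold Dc
  have h5 := mul_le_mul_of_nonneg_left h2 (show 0 ≤ π / 2 * c by positivity)
  have h6 : π / 2 * c * (ct (bx ℓ (bx ℓ (str φ0 s))) 0 +
      ℓ ^ 2 * (π ^ 2 / 3 * ∫ v, ct φ0 v * v ^ 2) / s ^ 2) =
      π / 2 * c * ct (bx ℓ (bx ℓ (str φ0 s))) 0 +
      π / 2 * c * (ℓ ^ 2 * (π ^ 2 / 3 * ∫ v, ct φ0 v * v ^ 2)) / s ^ 2 := by
    ring
  linarith

/-- the discrepancy vanishes on the averages of windows -/
theorem Dc_z (RH : RiemannHypothesis) (hgt : (g : Filter ℝ) ≤ atTop) (h : LD g B C0)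
    (hℓ : 0 < ℓ) (hH : HP ℓ) (hc : 0 < c) {ψ : ℝ → ℝ} (hψ : TK κ ψ) :
    Dc B c (bx ℓ ψ) = 0 := by
  obtain ⟨φ0, hφ, hφp, hφ1, hφ2, _⟩ := exists_pos2 (κ := 1) one_pos
  obtain ⟨Mp, hMp⟩ := Dc_str2 RH hgt h hℓ hc hφ hφ2
  obtain ⟨δ, hδ, hδ2⟩ := Metric.eventually_nhds_iff.1
    ((hφ.cont.continuousAt (x := 0)).eventually_const_lt (show φ0 0 / 2 < φ0 0 by linarith))
  have hge : ∀ (κ : ℝ) (ψ : ℝ → ℝ), TK κ ψ → 0 ≤ Dc B c (bx ℓ ψ) := by
    intro κ ψ hψ
    obtain ⟨M, hM⟩ := hψ.hcs.exists_bound_of_continuous hψ.cont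
    have hM0 : 0 ≤ M := (norm_nonneg _).trans (hM 0)
    obtain ⟨A, hA⟩ : ∃ A, A = 2 * M / (ℓ * φ0 0) := ⟨_, rfl⟩
    have hA0 : 0 ≤ A := by rw [hA]; positivity
    have h1 : ∀ s : ℝ, 1 ≤ s → (|κ| + ℓ / 2) / δ < s → -(A * Mp / s ^ 2) ≤ Dc B c (bx ℓ ψ) := by
      intro s hs1 hs
      have hs0 : 0 < s := by linarith
      have hstr := str_TK hφ hs0
      have hb1 := bx_TK hstr hℓ
      have hAK : TK (max (s * 1 + ℓ / 2) κ) fun x => A * bx ℓ (str φ0 s) x :=
        TK_smul (hb1.mono (le_max_left _ _)) _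
      have hK' := hψ.mono (le_max_right (s * 1 + ℓ / 2) κ)
      have hdom : ∀ x, 0 ≤ A * bx ℓ (str φ0 s) x - ψ x := by
        intro x
        have hb0 : 0 ≤ bx ℓ (str φ0 s) x :=
          intervalIntegral.integral_nonneg (by linarith) fun y _ => by
            rw [str_val φ0 hs0]
            exact hφp _
        rcases lt_or_ge κ |x| with hx | hx
        · rw [hψ.supp x hx, sub_zero]
          exact mul_nonneg hA0 hb0
        · have h2 : ℓ * (φ0 0 / 2) ≤ bx ℓ (str φ0 s) x := by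
            unfold bx
            have h3 : ∫ _ in (x - ℓ / 2)..(x + ℓ / 2), φ0 0 / 2 ≤
                ∫ t in (x - ℓ / 2)..(x + ℓ / 2), str φ0 s t := by
              refine intervalIntegral.integral_mono_on (by linarith) (by simp)
                (hstr.cont.intervalIntegrable _ _) fun t ht => ?_
              rw [str_val φ0 hs0]
              refine (hδ2 ?_).le
              rw [Real.dist_eq, sub_zero, abs_mul, abs_of_pos (inv_pos.2 hs0),
                inv_mul_lt_iff₀ hs0]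
              rw [div_lt_iff₀ hδ] at hs
              refine lt_of_le_of_lt ?_ hs
              have h4 : |t| ≤ |x| + ℓ / 2 := by
                have h5 : |t - x| ≤ ℓ / 2 := by
                  rw [abs_le]
                  constructor <;> linarith [ht.1, ht.2]
                have := abs_sub_abs_le_abs_sub t x
                linarith
              have := le_abs_self κ
              linarith
            rw [intervalIntegral.integral_const, smul_eq_mul] at h3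
            have e1 : x + ℓ / 2 - (x - ℓ / 2) = ℓ := by ring
            rwa [e1] at h3
          have h3 : M ≤ A * bx ℓ (str φ0 s) x := by
            calc M = A * (ℓ * (φ0 0 / 2)) := by
                  rw [hA]
                  field_simp
              _ ≤ _ := mul_le_mul_of_nonneg_left h2 hA0
          have h4 := (le_abs_self _).trans (hM x)
          linarith
      have h3 := Dc_np RH hgt h hℓ hH (κ := max (s * 1 + ℓ / 2) κ) (by
        refine le_trans ?_ (le_max_left _ _)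
        linarith) hc (TK_sub hAK hK') hdom
      rw [bx_sub hAK.cont hψ.cont, bx_smul, Dc_sub h hc
        (TK_smul ((bx_TK hb1 hℓ).mono (le_max_left _ (κ + ℓ / 2))) A)
        ((bx_TK hψ hℓ).mono (le_max_right _ _)), Dc_smul] at h3
      have h4 := mul_le_mul_of_nonneg_left (hMp s hs0) hA0
      have h5 : A * -(Mp / s ^ 2) = -(A * Mp / s ^ 2) := by ring
      linarith
    have h6 : Tendsto (fun s : ℝ => -(A * Mp / s ^ 2)) atTop (𝓝 (-0)) :=
      (tendsto_const_nhds.div_atTop (tendsto_pow_atTop two_ne_zero)).neg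
    rw [neg_zero] at h6
    refine le_of_tendsto h6 ?_
    filter_upwards [eventually_ge_atTop 1, eventually_gt_atTop ((|κ| + ℓ / 2) / δ)] with s hs1 hs
    exact h1 s hs1 hs
  have h1 := hge κ ψ hψ
  have h2 := hge κ _ (TK_smul hψ (-1))
  rw [bx_smul, Dc_smul] at h2
  linarith

end Pool.Agent.H7.AE
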