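import Pool.Agent.H7.AE.Dsc

/-! The pair correlation conjecture, from the windows of one length. -/

open MeasureTheory Filter Topology Real
open scoped ENNReal ContDiff

namespace Pool.Agent.H7.AE

open H370 TH803TW Pool.Agent.Y744 Pool.Agent.Y744.ANC Pool.Agent.H7.FF Pool.Agent.H7.PS
open Pool.Agent.H7.LH Pool.Agent.H7.AC
open Pool.Agent.Results.MP_103a5c_nt.BohrSetPairs

variable {κ : ℝ} {K : ℝ → ℝ} {g : Ultrafilter ℝ} {B : ℝ → ℝ → ℝ} {C0 : ℝ} {c : ℝ} {ℓ : ℝ}

/-- the Riemann hypothesis from the windows of one length -/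
theorem HP.RH (hℓ : 0 < ℓ) (h : HP ℓ) : RiemannHypothesis := by
  refine rh_of_upper (A := 1) (by norm_num) (Eventually.frequently ?_)
  filter_upwards [eventually_gt_atTop 1] with b hb
  have hb0 : 0 < b := by linarith
  obtain ⟨C, hC, hw⟩ := h.toRW hℓ b hb
  refine ⟨C, Eventually.frequently ?_⟩
  filter_upwards [hw, eventually_gt_atTop 1] with T h1 hT
  have hL : 0 < Real.log T := Real.log_pos hT
  refine le_trans ?_ h1
  unfold Jf Wn
  rw [← lintegral_indicator measurableSet_Ioi, ← lintegral_indicator measurableSet_Ioc]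
  refine lintegral_mono fun v => ?_
  by_cases hv : v ∈ Set.Ioi (1 * Real.log T)
  · rw [Set.indicator_of_mem hv]
    have hv0 : 0 < v := lt_trans (by linarith) hv
    by_cases hv2 : v ≤ b * Real.log T
    · rw [Set.indicator_of_mem (show v ∈ Set.Ioc (0 * Real.log T) (b * Real.log T) from
        ⟨by rw [zero_mul]; exact hv0, hv2⟩)]
      refine mul_le_of_le_one_left' ?_
      rw [ENNReal.ofReal_le_one]
      have : 0 ≤ v / (b * Real.log T) := by positivity
      linarith
    · have h3 : 1 - v / (b * Real.log T) ≤ 0 := by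
        have : 1 ≤ v / (b * Real.log T) := by
          rw [le_div_iff₀ (by positivity), one_mul]
          exact (not_le.1 hv2).le
        linarith
      rw [ENNReal.ofReal_of_nonpos h3, zero_mul]
      exact zero_le
  · rw [Set.indicator_of_notMem hv]
    exact zero_le

lemma Bm_eq (RH : RiemannHypothesis) (hgt : (g : Filter ℝ) ≤ atTop) (h : LD g B C0)
    (hℓ : 0 < ℓ) (hH : HP ℓ) (hc : 0 < c) (y : ℝ) :
    Bm B c y = AG y * (π / 2 * c) := by
  have hpi := Real.pi_pos
  have hp : 0 < π / 2 * c := by positivity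
  have hL3 : ∀ K : ℝ → ℝ, Lam (fun y => (π / 2 * c)⁻¹ * Bm B c y) K =
      (π / 2 * c)⁻¹ * Lam (Bm B c) K := by
    intro K
    unfold Lam
    rw [mul_neg, ← integral_const_mul]
    congr 1
    refine integral_congr_ae (Eventually.of_forall fun y => ?_)
    show _ = _
    ring
  have hL4 : ∀ K : ℝ → ℝ, Dc B c K = 0 →
      Lam (fun y => (π / 2 * c)⁻¹ * Bm B c y) K = Lam AG K := by
    intro K h2
    unfold Dc at h2
    rw [hL3, sub_eq_zero.1 h2, ← mul_assoc, inv_mul_cancel₀ hp.ne', one_mul]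
  have h1 := AE.rigid (A' := fun y => (π / 2 * c)⁻¹ * Bm B c y) (C0 := C0) hℓ
    (fun a b hab => mul_le_mul_of_nonneg_left (Bm_mono h hc hab) (inv_nonneg.2 hp.le))
    (fun y hy => by
      show (π / 2 * c)⁻¹ * Bm B c y = 0
      rw [Bm_neg h hy, mul_zero])
    (fun y => by
      show |(π / 2 * c)⁻¹ * Bm B c y| ≤ _
      rw [abs_mul, abs_of_pos (inv_pos.2 hp), inv_mul_le_iff₀ hp]
      refine (Bm_bd h hc y).trans (le_of_eq ?_)
      ring)
    (by
      show 1 ≤ (π / 2 * c)⁻¹ * Bm B c 0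
      rw [← div_eq_inv_mul, one_le_div hp]
      exact Bm_ge h hc le_rfl)
    (fun K hK => hL4 K (Dc_mont RH hgt h hc hK (by norm_num) (by norm_num)))
    (fun κ K hK hKp => by
      rw [hL3]
      refine mul_nonneg (inv_nonneg.2 hp.le) (le_trans ?_ (Lam_low' RH hgt h hc hK hKp))
      exact mul_nonneg hp.le (hKp 0))
    (fun κ φ hφ => hL4 _ (Dc_z RH hgt h hℓ hH hc hφ)) y
  rw [← h1]
  field_simp

lemma Br_eq (RH : RiemannHypothesis) (hgt : (g : Filter ℝ) ≤ atTop) (h : LD g B C0)
    (hℓ : 0 < ℓ) (hH : HP ℓ) {τ : ℝ} (hτ : 0 < τ) (y : ℝ) : Br B τ y = AG y * τ := by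
  refine kc_unique_mono (B := fun τ => Br B τ y) (Br_mono2 h y) (C := C0 * (1 + y ^ 2))
    (fun τ hτ => (Br_bd h hτ y).trans (le_of_eq (by ring))) (fun c hc => ?_) hτ
  rw [kc_mass hc]
  exact Bm_eq RH hgt h hℓ hH hc y

lemma B_eq (RH : RiemannHypothesis) (hgt : (g : Filter ℝ) ≤ atTop) (h : LD g B C0)
    (hℓ : 0 < ℓ) (hH : HP ℓ) (y : ℝ) : B 1 y = AG y := by
  have h1 : B 1 y ≤ AG y := by
    have := Br_le h 1 y
    rwa [Br_eq RH hgt h hℓ hH one_pos, mul_one] at this
  rcases lt_trichotomy y 0 with hy | rfl | hy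
  · rw [h.neg 1 y hy]
    unfold AG
    rw [if_pos hy]
  · refine le_antisymm h1 ?_
    rw [AG_zero]
    exact h.diag 1 0 one_pos le_rfl
  · refine le_antisymm h1 ?_
    have h2 : ∀ x, x < y → AG x ≤ B 1 y := by
      intro x hx
      have h3 := (h.mono1 1).rightLim_le hx
      have h4 : Function.rightLim (B 1) x = AG x := by
        have := Br_eq RH hgt h hℓ hH one_pos x
        rwa [mul_one] at this
      rwa [h4] at h3
    have h5 : Tendsto AG (𝓝[<] y) (𝓝 (AG y)) := by
      have h6 : Tendsto (fun x => 1 + 2 * gp x) (𝓝[<] y) (𝓝 (1 + 2 * gp y)) := by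
        have hgc : Continuous gp := by
          unfold gp
          exact intervalIntegral.continuous_primitive
            (fun a b => gd_cont.intervalIntegrable a b) 0
        exact (continuous_const.add (continuous_const.mul hgc)).continuousAt.tendsto.mono_left
          nhdsWithin_le_nhds
      rw [AG_eq hy]
      refine h6.congr' ?_
      filter_upwards [nhdsWithin_le_nhds (Ioi_mem_nhds hy)] with x hx
      rw [AG_eq hx]
    exact le_of_tendsto h5 (eventually_mem_nhdsWithin.mono fun x hx => h2 x hx)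

/-- **the limits of the counting functions** -/
theorem Aa_limit (RH : RiemannHypothesis) (hℓ : 0 < ℓ) (hH : HP ℓ) (y : ℝ) :
    Tendsto (fun T => Aa T y) atTop (𝓝 (AG y)) := by
  rw [tendsto_iff_ultrafilter]
  intro g hg
  obtain ⟨B, C0, h⟩ := exists_LD RH g hg
  rw [← B_eq RH hg h hℓ hH y]
  have := h.lim 1 y
  refine this.congr fun T => ?_
  unfold BB Aa PC
  rw [one_mul]

theorem HP.limit (hℓ : 0 < ℓ) (h : HP ℓ) (y : ℝ) :
    Tendsto (fun T => Aa T y) atTop (𝓝 (AG y)) :=
  Aa_limit (h.RH hℓ) hℓ h y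

end Pool.Agent.H7.AE
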