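import Pool.Agent.H7.AC.ZUp

/-! The rough bounds, from the rough bound for the windows. -/

open MeasureTheory Filter Topology Real
open scoped ENNReal

namespace Pool.Agent.H7.AE

open Pool.Agent.H7.PS Pool.Agent.H7.LH Pool.Agent.H7.AC

/-- the rough bound on the windows -/
def RW : Prop := ∀ b : ℝ, 1 < b → ∃ C : ℝ, 0 ≤ C ∧ ∀ᶠ T : ℝ in atTop,
    Wn 0 b T ≤ ENNReal.ofReal (C * (Real.log T ^ 2 / T))

/-- the rough bound for all lengths -/
lemma rough_all (h : RW) {κ B : ℝ} (hκ : 0 ≤ κ) (hB : 1 ≤ B) : ∃ G : ℝ, 0 ≤ G ∧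
    ∀ᶠ T : ℝ in atTop, ∀ δ : ℝ, T ^ (-B) < δ → δ ≤ T ^ (-(1 / 2) : ℝ) →
      ∫⁻ v in Set.Ioc 0 ((κ + 1) * Real.log T), qd (v, δ) ≤
        ENNReal.ofReal (G * Real.log T ^ 2 * δ) := by
  obtain ⟨C, hC, hw⟩ := h (3 * (κ + 1)) (by linarith)
  obtain ⟨T0, hT0⟩ := (hw.and (eventually_gt_atTop 1)).exists_forall_of_atTop
  refine ⟨2 * C * B ^ 2, by positivity, ?_⟩
  have t1 : Tendsto (fun T : ℝ => T ^ (1 / 3 : ℝ)) atTop atTop := tendsto_rpow_atTop (by norm_num)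
  have t2 : Tendsto (fun T : ℝ => T ^ (1 / 6 : ℝ)) atTop atTop := tendsto_rpow_atTop (by norm_num)
  filter_upwards [t1.eventually_ge_atTop T0, t2.eventually_ge_atTop 2, eventually_gt_atTop 1]
    with T h1 h2 hT δ hδ1 hδ2
  have hTp : 0 < T := by linarith
  have hL : 0 < Real.log T := Real.log_pos hT
  have hδ0 : 0 < δ := lt_trans (by positivity) hδ1
  have hδl : δ ≤ 1 := hδ2.trans (Real.rpow_le_one_of_one_le_of_nonpos hT.le (by norm_num))
  obtain ⟨b1, b2, b3, b4⟩ := Th_bd hδ0 hδl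
  obtain ⟨T', hT'⟩ : ∃ T', T' = Th δ := ⟨_, rfl⟩
  have elog : Real.log (1 + 1 / T') = δ := by rw [hT', Th_log hδ0]
  rw [← hT'] at b1 b2 b3 b4
  have hlow : T ^ (1 / 3 : ℝ) ≤ T' := by
    refine le_trans ?_ b3
    rw [le_div_iff₀ (by positivity)]
    calc T ^ (1 / 3 : ℝ) * (δ * (1 + δ)) ≤ T ^ (1 / 3 : ℝ) * (T ^ (-(1 / 2) : ℝ) * 2) := by
          gcongr
          linarith
      _ = 2 * (T ^ (1 / 3 : ℝ) * T ^ (-(1 / 2) : ℝ)) := by ring
      _ = 2 * T ^ (-(1 / 6) : ℝ) := by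
          rw [← Real.rpow_add hTp]
          norm_num
      _ ≤ T ^ (1 / 6 : ℝ) * T ^ (-(1 / 6) : ℝ) := by gcongr
      _ = 1 := by
          rw [← Real.rpow_add hTp]
          norm_num
  have hhigh : T' ≤ T ^ B := by
    refine b2.trans ?_
    rw [div_le_iff₀ hδ0]
    calc (1 : ℝ) = T ^ B * T ^ (-B) := by
          rw [← Real.rpow_add hTp]
          norm_num
      _ ≤ T ^ B * δ := by gcongr
  obtain ⟨h3, h4⟩ := hT0 T' (h1.trans hlow)
  have hL'1 : Real.log T / 3 ≤ Real.log T' := by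
    have := Real.log_le_log (by positivity) hlow
    rw [Real.log_rpow hTp] at this
    linarith
  have hL'2 : Real.log T' ≤ B * Real.log T := by
    have := Real.log_le_log b1 hhigh
    rwa [Real.log_rpow hTp] at this
  have hL'0 : 0 < Real.log T' := by linarith
  calc ∫⁻ v in Set.Ioc 0 ((κ + 1) * Real.log T), qd (v, δ) ≤ Wn 0 (3 * (κ + 1)) T' := by
        unfold Wn
        rw [elog]
        refine lintegral_mono_set fun v hv => ⟨by rw [zero_mul]; exact hv.1, hv.2.trans ?_⟩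
        nlinarith
    _ ≤ ENNReal.ofReal (C * (Real.log T' ^ 2 / T')) := h3
    _ ≤ _ := by
        refine ENNReal.ofReal_le_ofReal ?_
        have h5 : Real.log T' ^ 2 ≤ (B * Real.log T) ^ 2 := pow_le_pow_left₀ hL'0.le hL'2 2
        have h6 : 1 / T' ≤ 2 * δ := b4.trans (by nlinarith)
        calc C * (Real.log T' ^ 2 / T') = C * (Real.log T' ^ 2 * (1 / T')) := by ring
          _ ≤ C * ((B * Real.log T) ^ 2 * (2 * δ)) := by gcongr
          _ = _ := by ring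

/-- the rough bound, with the weight -/
lemma rough_wt (h : RW) {κ M D B : ℝ} {K : ℝ → ℝ} (hK : WK κ M D K) (hM : 0 ≤ M) (hκ : 0 ≤ κ)
    (hB : 1 ≤ B) : ∃ G : ℝ, 0 ≤ G ∧ ∀ᶠ T : ℝ in atTop, ∀ δ : ℝ, T ^ (-B) < δ →
      δ ≤ T ^ (-(1 / 2) : ℝ) → ∫⁻ v, Om1 (kT K T) v * qd (v, δ) ≤
        ENNReal.ofReal (G * Real.log T ^ 2 * δ) := by
  obtain ⟨G, hG, h1⟩ := rough_all h (κ := κ) hκ hB
  obtain ⟨P, hP⟩ : ∃ P, P = 4 * M * Real.sqrt (4 * π) := ⟨_, rfl⟩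
  have hP0 : 0 ≤ P := by rw [hP]; positivity
  refine ⟨P * G + 1, by positivity, ?_⟩
  filter_upwards [h1, out_small (B := B) hK hM hκ (by linarith) one_pos, eventually_gt_atTop 1]
    with T h1 h2 hT δ hδ1 hδ2
  have hTp : 0 < T := by linarith
  have hδ0 : 0 < δ := lt_trans (by positivity) hδ1
  have hδl : δ ≤ 1 := hδ2.trans (Real.rpow_le_one_of_one_le_of_nonpos hT.le (by norm_num))
  rw [compl_split measurableSet_Ioc]
  have h3 : ∫⁻ v in Set.Ioc 0 ((κ + 1) * Real.log T), Om1 (kT K T) v * qd (v, δ) ≤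
      ENNReal.ofReal (P * (G * Real.log T ^ 2 * δ)) := by
    rw [ENNReal.ofReal_mul hP0]
    refine le_trans ?_ (mul_le_mul_right (h1 δ hδ1 hδ2) _)
    rw [← lintegral_const_mul' _ _ ENNReal.ofReal_ne_top]
    refine lintegral_mono fun v => mul_le_mul_left ?_ _
    rw [hP]
    exact Om1_main hK hT hM v
  refine (add_le_add h3 (h2 δ hδ1 hδl)).trans (le_of_eq ?_)
  rw [← ENNReal.ofReal_add (by positivity) (by positivity)]
  congr 1
  ring

/-- the secondary part -/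
theorem jf_rough (h : RW) {κ M D : ℝ} {K : ℝ → ℝ} (hK : WK κ M D K) (hM : 0 ≤ M) (hκ : 1 ≤ κ)
    {c : ℝ} (hc : 0 < c) : ∃ C : ℝ, 0 ≤ C ∧ ∀ᶠ T : ℝ in atTop, ∀ S : ℝ, c * T ≤ S →
      S ≤ 2 * (c * T) → JF S (Om1 (kT K T)) ≤ ENNReal.ofReal (C * Real.log T ^ 2 / S ^ 2) := by
  obtain ⟨G, hG, hw⟩ := rough_wt h hK hM (by linarith) (B := κ + 4) (by linarith)
  refine ⟨4 * c ^ 2 * G + 3 * G + 2, by positivity, ?_⟩
  have t1 : Tendsto (fun T : ℝ => T ^ (1 / 2 : ℝ)) atTop atTop := tendsto_rpow_atTop (by norm_num)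
  filter_upwards [hw, small_terms (κ := κ) hc (by linarith) hM one_pos, eventually_gt_atTop 1,
    t1.eventually_ge_atTop 1] with T hw hst hT a1 S hS1 hS2
  have hTp : 0 < T := by linarith
  obtain ⟨hS4, s1, s2⟩ := hst S hS1 hS2
  have hS0 : 0 < S := by linarith
  have hd0 : T ^ (-(κ + 4)) ≤ 1 / T := by
    rw [one_div, ← Real.rpow_neg_one]
    exact Real.rpow_le_rpow_of_exponent_le hT.le (by linarith)
  have hd1 : 1 / T ≤ T ^ (-(1 / 2) : ℝ) := by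
    rw [one_div, ← Real.rpow_neg_one]
    exact Real.rpow_le_rpow_of_exponent_le hT.le (by norm_num)
  have hkey := jf_gen (S := S) (E := E0 M κ T) (G := G * Real.log T ^ 2) (I := G * Real.log T ^ 2)
    (d0 := T ^ (-(κ + 4))) (a := 1 / T) (b := 1 / T) (d1 := T ^ (-(1 / 2) : ℝ))
    (Ω := Om1 (kT K T)) (by linarith) (E0_nonneg hM (by linarith) hT) (by positivity)
    (by positivity) (by positivity) hd0 le_rfl hd1 (E0_mass hK hM hT)
    (fun δ h1 h2 => hw δ h1 h2) (fun δ h1 h2 => absurd h2 (not_le.2 h1))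
  refine hkey.trans (ENNReal.ofReal_le_ofReal ?_)
  obtain ⟨Q, hQ⟩ : ∃ Q, Q = Real.log T ^ 2 / S ^ 2 := ⟨_, rfl⟩
  have hQ0 : 0 ≤ Q := by rw [hQ]; positivity
  have e1 : 1 * Real.log T ^ 2 / S ^ 2 = Q := by rw [hQ]; ring
  rw [e1] at s1 s2
  have e2 : G * Real.log T ^ 2 / S ^ 2 = G * Q := by rw [hQ]; ring
  have e3 : (4 * c ^ 2 * G + 3 * G + 2) * Real.log T ^ 2 / S ^ 2 =
      (4 * c ^ 2 * G + 3 * G + 2) * Q := by rw [hQ]; ring
  rw [e2, e3]
  have h1 : G * Real.log T ^ 2 * (1 / T) ^ 2 ≤ 4 * c ^ 2 * G * Q := by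
    have h2 : (1 / T) ^ 2 ≤ 4 * c ^ 2 * (1 / S ^ 2) := by
      rw [one_div_pow, mul_one_div, div_le_div_iff₀ (by positivity) (by positivity)]
      have := pow_le_pow_left₀ hS0.le hS2 2
      linarith
    calc G * Real.log T ^ 2 * (1 / T) ^ 2 ≤ G * Real.log T ^ 2 * (4 * c ^ 2 * (1 / S ^ 2)) := by
          gcongr
      _ = _ := by rw [hQ]; ring
  have h2 : G * Q * (2 * Real.exp (-(S / 2) * (1 / T))) ≤ G * Q * 2 := by
    have h3 : Real.exp (-(S / 2) * (1 / T)) ≤ 1 := by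
      rw [Real.exp_le_one_iff]
      have : 0 < S / 2 * (1 / T) := by positivity
      linarith
    refine mul_le_mul_of_nonneg_left (by linarith) (by positivity)
  have e4 : (4 * c ^ 2 * G + 3 * G + 2) * Q = Q + 4 * c ^ 2 * G * Q + G * Q + G * Q * 2 + Q := by
    ring
  rw [e4]
  linarith

end Pool.Agent.H7.AE
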