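import Pool.Agent.H7.AE.Rgh

/-! The sharp bound for one test function. -/

open MeasureTheory Filter Topology Real
open scoped ENNReal

namespace Pool.Agent.H7.AE

open Pool.Agent.H7.PS Pool.Agent.H7.LH Pool.Agent.H7.AC

/-- the sharp bound for one test function -/
def SB (κ : ℝ) (K : ℝ → ℝ) (I : ℝ) : Prop := ∀ ε : ℝ, 0 < ε → ∃ η : ℝ, 0 < η ∧ ∀ᶠ T : ℝ in atTop,
      ∫⁻ v in Set.Ioc 0 (2 * (κ + 1) * Real.log T), ENNReal.ofReal (K (v / Real.log T) + η) *
        qd (v, Real.log (1 + 1 / T)) ≤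
      ENNReal.ofReal ((I + ε) * (Real.log T ^ 2 / T))

/-- **the sharp bound** -/
lemma sharp_wt {κ M D I : ℝ} {K : ℝ → ℝ} (h : SB κ K I) (hI0 : 0 ≤ I) (hK : WK κ M D K)
    (hM : 0 ≤ M) (hκ : 1 ≤ κ) {h0 h1 ε : ℝ} (hh0 : 0 < h0) (hε : 0 < ε) :
    ∀ᶠ T : ℝ in atTop, ∀ δ : ℝ, h0 / T < δ → δ ≤ h1 / T →
      ∫⁻ v, Om0 (kT K T) v * qd (v, δ) ≤
        ENNReal.ofReal (Real.sqrt π * (I + ε) * Real.log T ^ 2 * δ) := by
  have hD : 0 ≤ D := by
    have h1 := hK.lip 1 0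
    have h2 := abs_nonneg (K 1 - K 0)
    simp at h1
    linarith
  have hc := cC_one
  have hpi : 0 < Real.sqrt π := by positivity
  have hpi1 : 1 ≤ Real.sqrt π := by
    rw [Real.one_le_sqrt]
    linarith [Real.pi_gt_three]
  obtain ⟨b, hb⟩ : ∃ b, b = 2 * (κ + 1) := ⟨_, rfl⟩
  obtain ⟨η, hη, hsh⟩ := h (ε / 4) (by positivity)
  rw [← hb] at hsh
  obtain ⟨T0, hT0⟩ := (hsh.and (eventually_gt_atTop 1)).exists_forall_of_atTop
  -- constants
  obtain ⟨Λ, hΛ⟩ : ∃ Λ, Λ = |Real.log h0| + |Real.log (2 * h1)| := ⟨_, rfl⟩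
  have hΛ0 : 0 ≤ Λ := by rw [hΛ]; positivity
  have hT1 : ∀ᶠ T : ℝ in atTop, (I + ε / 4) * ((1 + Λ / Real.log T) ^ 2 * (1 + h1 / T)) <
      I + ε / 2 := by
    have t1 : Tendsto (fun T : ℝ => (I + ε / 4) * ((1 + Λ / Real.log T) ^ 2 * (1 + h1 / T))) atTop
        (𝓝 ((I + ε / 4) * ((1 + 0) ^ 2 * (1 + 0)))) := by
      refine Tendsto.const_mul _ (Tendsto.mul (Tendsto.pow ?_ 2) ?_)
      · exact (tendsto_const_nhds.div_atTop Real.tendsto_log_atTop).const_add 1
      · exact (tendsto_const_nhds.div_atTop tendsto_id).const_add 1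
    exact (tendsto_order.1 t1).2 _ (by norm_num; linarith)
  have hT2 : ∀ᶠ T : ℝ in atTop, (2 * D * (κ + 1) * Λ + 3 * D) / Real.log T < η :=
    (tendsto_order.1 (tendsto_const_nhds.div_atTop Real.tendsto_log_atTop)).2 _ hη
  have hB := out_small (B := 2) hK hM (by linarith) (by norm_num) (show 0 < ε / 4 by positivity)
  filter_upwards [hT1, hT2, hB, eventually_gt_atTop 1, eventually_ge_atTop (2 * h1 * max T0 1),
    eventually_ge_atTop h1, eventually_gt_atTop (1 / h0),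
    Real.tendsto_log_atTop.eventually_ge_atTop (2 * Λ + 1)]
    with T a1 a2 hB hT a3 a4 a5 a6 δ hδ1 hδ2
  have hTp : 0 < T := by linarith
  have hδ0 : 0 < δ := lt_trans (by positivity) hδ1
  have hh1 : 0 < h1 := by
    have h2 : 0 < h1 / T := hδ0.trans_le hδ2
    by_contra hcon
    have : h1 / T ≤ 0 := div_nonpos_of_nonpos_of_nonneg (not_lt.1 hcon) hTp.le
    linarith
  have hδl : δ ≤ 1 := hδ2.trans (by rw [div_le_one hTp]; exact a4)
  obtain ⟨b1, b2, b3, b4⟩ := Th_bd hδ0 hδl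
  obtain ⟨T', hT'⟩ : ∃ T', T' = Th δ := ⟨_, rfl⟩
  have elog : Real.log (1 + 1 / T') = δ := by rw [hT', Th_log hδ0]
  rw [← hT'] at b1 b2 b3 b4
  obtain ⟨L, hL⟩ : ∃ L, L = Real.log T := ⟨_, rfl⟩
  obtain ⟨L', hL'⟩ : ∃ L', L' = Real.log T' := ⟨_, rfl⟩
  rw [← hL] at a1 a2 a6 hB ⊢
  have hL0 : 0 < L := by linarith
  have hlow : T / (2 * h1) ≤ T' := by
    refine le_trans ?_ b3
    rw [div_le_div_iff₀ (by positivity) (by positivity)]
    have h2 : T * δ ≤ h1 := by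
      rw [le_div_iff₀ hTp] at hδ2
      linarith
    nlinarith
  have hhigh : T' ≤ T / h0 := by
    refine b2.trans ?_
    rw [div_le_div_iff₀ hδ0 hh0]
    rw [div_lt_iff₀ hTp] at hδ1
    linarith
  have hT'0 : T0 ≤ T' := by
    refine le_trans ?_ hlow
    rw [le_div_iff₀ (by positivity)]
    have : 2 * h1 * T0 ≤ 2 * h1 * max T0 1 := mul_le_mul_of_nonneg_left (le_max_left _ _)
      (by positivity)
    linarith
  obtain ⟨hs, hT'1⟩ := hT0 T' hT'0
  rw [elog, ← hL'] at hs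
  have hLL : |L' - L| ≤ Λ := by
    rw [abs_le]
    constructor
    · have h2 := Real.log_le_log (by positivity) hlow
      rw [Real.log_div hTp.ne' (by positivity), ← hL, ← hL'] at h2
      have h3 := le_abs_self (Real.log (2 * h1))
      have h4 := abs_nonneg (Real.log h0)
      linarith
    · have h2 := Real.log_le_log b1 hhigh
      rw [Real.log_div hTp.ne' hh0.ne', ← hL, ← hL'] at h2
      have h3 := neg_abs_le (Real.log h0)
      have h4 := abs_nonneg (Real.log (2 * h1))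
      linarith
  have hLL1 := (abs_le.1 hLL).1
  have hLL2 := (abs_le.1 hLL).2
  have hL'2 : L / 2 ≤ L' := by linarith
  have hL'0 : 0 < L' := by linarith
  rw [compl_split (measurableSet_Ioc (a := (0 : ℝ)) (b := (κ + 1) * L))]
  -- outside
  have p2 : ∫⁻ v in (Set.Ioc 0 ((κ + 1) * L))ᶜ, Om0 (kT K T) v * qd (v, δ) ≤
      ENNReal.ofReal (ε / 4 * L ^ 2 * δ) := by
    refine (lintegral_mono fun v => mul_le_mul_left (Om0_le_Om1 _ _) _).trans (hB δ ?_ hδl)
    refine lt_of_le_of_lt ?_ hδ1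
    rw [div_lt_iff₀ hh0] at a5
    rw [Real.rpow_neg hTp.le, le_div_iff₀ hTp]
    norm_num
    rw [inv_mul_le_iff₀ (by positivity)]
    nlinarith
  -- inside
  have p1 : ∫⁻ v in Set.Ioc 0 ((κ + 1) * L), Om0 (kT K T) v * qd (v, δ) ≤
      ENNReal.ofReal (Real.sqrt π * ((I + ε / 4) * (L' ^ 2 / T'))) := by
    have h2 : ∫⁻ v in Set.Ioc 0 ((κ + 1) * L), Om0 (kT K T) v * qd (v, δ) ≤
        ∫⁻ v in Set.Ioc 0 (b * L'), ENNReal.ofReal (Real.sqrt π) *
          (ENNReal.ofReal (K (v / L') + η) * qd (v, δ)) := by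
      rw [← lintegral_indicator measurableSet_Ioc, ← lintegral_indicator measurableSet_Ioc]
      refine lintegral_mono fun v => ?_
      by_cases hv : v ∈ Set.Ioc 0 ((κ + 1) * L)
      · have hv2 : v ∈ Set.Ioc 0 (b * L') := ⟨hv.1, hv.2.trans (by rw [hb]; nlinarith)⟩
        rw [Set.indicator_of_mem hv, Set.indicator_of_mem hv2, ← mul_assoc,
          ← ENNReal.ofReal_mul hpi.le]
        refine mul_le_mul_left ((Om0_v hK hT).trans (ENNReal.ofReal_le_ofReal ?_)) _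
        refine mul_le_mul_of_nonneg_left ?_ hpi.le
        rw [← hL]
        have h3 := (le_abs_self _).trans (hK.lip (v / L) (v / L'))
        have h4 : |v / L - v / L'| ≤ 2 * (κ + 1) * Λ / L := by
          have h5 : v / L - v / L' = v / L * ((L' - L) / L') := by
            field_simp
          rw [h5, abs_mul, abs_of_nonneg (div_nonneg hv.1.le hL0.le), abs_div, abs_of_pos hL'0]
          have h6 : v / L ≤ κ + 1 := by
            rw [div_le_iff₀ hL0]
            exact hv.2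
          have h7 : |L' - L| / L' ≤ 2 * Λ / L := by
            rw [div_le_div_iff₀ hL'0 hL0]
            calc |L' - L| * L ≤ Λ * L := mul_le_mul_of_nonneg_right hLL hL0.le
              _ ≤ Λ * (2 * L') := mul_le_mul_of_nonneg_left (by linarith) hΛ0
              _ = _ := by ring
          calc v / L * (|L' - L| / L') ≤ (κ + 1) * (2 * Λ / L) :=
                mul_le_mul h6 h7 (by positivity) (by linarith)
            _ = _ := by ring
        have h5 := mul_le_mul_of_nonneg_left h4 hD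
        have h6 : D * (2 * (κ + 1) * Λ / L) + 3 * D / L = (2 * D * (κ + 1) * Λ + 3 * D) / L := by
          ring
        linarith
      · rw [Set.indicator_of_notMem hv]
        exact zero_le
    refine h2.trans ?_
    rw [lintegral_const_mul' _ _ ENNReal.ofReal_ne_top, ENNReal.ofReal_mul hpi.le]
    refine mul_le_mul_right (hs.trans (ENNReal.ofReal_le_ofReal ?_)) _
    refine mul_le_mul_of_nonneg_right ?_ (by positivity)
    exact le_rfl
  refine (add_le_add p1 p2).trans ?_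
  rw [← ENNReal.ofReal_add (by positivity) (by positivity)]
  refine ENNReal.ofReal_le_ofReal ?_
  have h3 : L' ^ 2 / T' ≤ (1 + Λ / L) ^ 2 * (1 + h1 / T) * (L ^ 2 * δ) := by
    have h4 : L' ^ 2 ≤ (L + Λ) ^ 2 := pow_le_pow_left₀ hL'0.le (by linarith) 2
    have h5 : 1 / T' ≤ δ * (1 + h1 / T) := by
      refine b4.trans (mul_le_mul_of_nonneg_left ?_ hδ0.le)
      linarith
    calc L' ^ 2 / T' = L' ^ 2 * (1 / T') := by ring
      _ ≤ (L + Λ) ^ 2 * (δ * (1 + h1 / T)) := by gcongr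
      _ = _ := by
          field_simp
  exact fin_num hI0 hε hδ0 hL0 hpi1 h3 a1

/-- **the main part** -/
theorem jf_sharp (h : RW) {κ M D I : ℝ} {K : ℝ → ℝ} (hS : SB κ K I) (hI0 : 0 ≤ I)
    (hK : WK κ M D K) (hM : 0 ≤ M) (hκ : 1 ≤ κ) {c ε : ℝ} (hc : 0 < c) (hε : 0 < ε) : ∀ᶠ T : ℝ in atTop, ∀ S : ℝ, c * T ≤ S →
      S ≤ 2 * (c * T) → JF S (Om0 (kT K T)) ≤
        ENNReal.ofReal (Real.sqrt π * (I + ε) * Real.log T ^ 2 / S ^ 2) := by
  have hcC := cC_one
  obtain ⟨G, hG, hw⟩ := rough_wt h hK hM (by linarith) (B := κ + 4) (by linarith)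
  -- the ends of the main range
  obtain ⟨h0, hh0, hh01, hh02⟩ : ∃ h0 : ℝ, 0 < h0 ∧ h0 ≤ 1 ∧ 4 * c ^ 2 * G * h0 ≤ ε / 5 := by
    refine ⟨min 1 (ε / (20 * (c ^ 2 * G + 1))), lt_min one_pos (by positivity), min_le_left _ _, ?_⟩
    have h1 : min 1 (ε / (20 * (c ^ 2 * G + 1))) ≤ ε / (20 * (c ^ 2 * G + 1)) := min_le_right _ _
    have h2 : 4 * c ^ 2 * G * (ε / (20 * (c ^ 2 * G + 1))) ≤ ε / 5 := by
      have h3 : 4 * c ^ 2 * G * (ε / (20 * (c ^ 2 * G + 1))) =
          ε / 5 * (c ^ 2 * G / (c ^ 2 * G + 1)) := by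
        field_simp
        ring
      rw [h3]
      have h4 : c ^ 2 * G / (c ^ 2 * G + 1) ≤ 1 := by
        rw [div_le_one (by positivity)]
        linarith
      nlinarith
    have h3 : 4 * c ^ 2 * G * min 1 (ε / (20 * (c ^ 2 * G + 1))) ≤
        4 * c ^ 2 * G * (ε / (20 * (c ^ 2 * G + 1))) := mul_le_mul_of_nonneg_left h1 (by positivity)
    linarith
  obtain ⟨h1, hh1, hh12⟩ : ∃ h1 : ℝ, 1 ≤ h1 ∧ 2 * G * Real.exp (-(c / 2) * h1) ≤ ε / 5 := by
    have t1 : Tendsto (fun x : ℝ => 2 * G * Real.exp (-((c / 2) * x))) atTop (𝓝 (2 * G * 0)) :=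
      (Real.tendsto_exp_neg_atTop_nhds_zero.comp
        (tendsto_id.const_mul_atTop (by positivity))).const_mul _
    rw [mul_zero] at t1
    obtain ⟨x, hx, hx1⟩ := (((tendsto_order.1 t1).2 (ε / 5) (by positivity)).and
      (eventually_ge_atTop 1)).exists
    refine ⟨x, hx1, ?_⟩
    rw [neg_mul]
    exact hx.le
  have hsh := sharp_wt hS hI0 hK hM hκ (h0 := h0) (h1 := h1) hh0 (show 0 < ε / 5 by positivity)
  have t1 : Tendsto (fun T : ℝ => T ^ (1 / 2 : ℝ)) atTop atTop := tendsto_rpow_atTop (by norm_num)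
  filter_upwards [hw, hsh, small_terms (κ := κ) hc (by linarith) hM (show 0 < ε / 5 by positivity),
    eventually_gt_atTop 1, t1.eventually_ge_atTop h1, eventually_ge_atTop (1 / h0)]
    with T hw hsh hst hT a1 a2 S hS1 hS2
  have hTp : 0 < T := by linarith
  obtain ⟨hS4, s1, s2⟩ := hst S hS1 hS2
  have hS0 : 0 < S := by linarith
  have hd0 : T ^ (-(κ + 4)) ≤ h0 / T := by
    rw [div_le_iff₀ hh0] at a2
    have h2 : T ^ (-(κ + 4)) ≤ T ^ (-2 : ℝ) :=
      Real.rpow_le_rpow_of_exponent_le hT.le (by linarith)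
    refine h2.trans ?_
    rw [le_div_iff₀ hTp, Real.rpow_neg hTp.le]
    norm_num
    rw [inv_mul_le_iff₀ (by positivity)]
    nlinarith
  have hd1 : h1 / T ≤ T ^ (-(1 / 2) : ℝ) := by
    rw [div_le_iff₀ hTp]
    have h2 : T ^ (-(1 / 2) : ℝ) * T = T ^ (1 / 2 : ℝ) := by
      rw [← Real.rpow_add_one hTp.ne']
      norm_num
    rw [h2]
    exact a1
  have hkey := jf_gen (S := S) (E := E0 M κ T) (G := G * Real.log T ^ 2)
    (I := Real.sqrt π * (I + ε / 5) * Real.log T ^ 2)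
    (d0 := T ^ (-(κ + 4))) (a := h0 / T) (b := h1 / T) (d1 := T ^ (-(1 / 2) : ℝ))
    (Ω := Om0 (kT K T)) (by linarith) (E0_nonneg hM (by linarith) hT) (by positivity)
    (by positivity) (by positivity) hd0 (div_le_div_of_nonneg_right (by linarith) hTp.le) hd1
    ((lintegral_mono fun v => mul_le_mul_left (Om0_le_Om1 _ _) _).trans (E0_mass hK hM hT))
    (fun δ h1 h2 => (lintegral_mono fun v => mul_le_mul_left (Om0_le_Om1 _ _) _).trans
      (hw δ h1 h2)) (fun δ h1 h2 => hsh δ h1 h2)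
  refine hkey.trans (ENNReal.ofReal_le_ofReal ?_)
  obtain ⟨Q, hQ⟩ : ∃ Q, Q = Real.log T ^ 2 / S ^ 2 := ⟨_, rfl⟩
  have hQ0 : 0 ≤ Q := by rw [hQ]; positivity
  have e1 : ε / 5 * Real.log T ^ 2 / S ^ 2 = ε / 5 * Q := by rw [hQ]; ring
  rw [e1] at s1 s2
  have e2 : G * Real.log T ^ 2 / S ^ 2 = G * Q := by rw [hQ]; ring
  have e3 : Real.sqrt π * (I + ε) * Real.log T ^ 2 / S ^ 2 = Real.sqrt π * (I + ε) * Q := by
    rw [hQ]; ring
  have e5 : Real.sqrt π * (I + ε / 5) * Real.log T ^ 2 / S ^ 2 =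
      Real.sqrt π * (I + ε / 5) * Q := by rw [hQ]; ring
  rw [e2, e3, e5]
  have k1 : G * Real.log T ^ 2 * (h0 / T) ^ 2 ≤ ε / 5 * Q := by
    have h2 : (h0 / T) ^ 2 ≤ 4 * c ^ 2 * h0 * (1 / S ^ 2) := by
      rw [div_pow, mul_one_div, div_le_div_iff₀ (by positivity) (by positivity)]
      have h3 := pow_le_pow_left₀ hS0.le hS2 2
      have h4 : h0 ^ 2 ≤ h0 := by nlinarith
      calc h0 ^ 2 * S ^ 2 ≤ h0 * (2 * (c * T)) ^ 2 := by gcongr
        _ = _ := by ring
    calc G * Real.log T ^ 2 * (h0 / T) ^ 2 ≤ G * Real.log T ^ 2 * (4 * c ^ 2 * h0 * (1 / S ^ 2)) := by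
          gcongr
      _ = 4 * c ^ 2 * G * h0 * Q := by rw [hQ]; ring
      _ ≤ _ := mul_le_mul_of_nonneg_right hh02 hQ0
  have k2 : G * Q * (2 * Real.exp (-(S / 2) * (h1 / T))) ≤ ε / 5 * Q := by
    have h3 : Real.exp (-(S / 2) * (h1 / T)) ≤ Real.exp (-(c / 2) * h1) := by
      refine Real.exp_le_exp.2 ?_
      have h4 : c / 2 * h1 ≤ S / 2 * (h1 / T) := by
        have h5 : c / 2 * h1 = c * T / 2 * (h1 / T) := by field_simp
        rw [h5]
        refine mul_le_mul_of_nonneg_right (by linarith) (by positivity)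
      linarith
    calc G * Q * (2 * Real.exp (-(S / 2) * (h1 / T))) ≤ G * Q * (2 * Real.exp (-(c / 2) * h1)) := by
          gcongr
      _ = (2 * G * Real.exp (-(c / 2) * h1)) * Q := by ring
      _ ≤ _ := mul_le_mul_of_nonneg_right hh12 hQ0
  have k3 : 4 * (ε / 5) * Q ≤ Real.sqrt π * (4 * (ε / 5)) * Q := by
    refine mul_le_mul_of_nonneg_right ?_ hQ0
    have := exp2
    nlinarith
  have e4 : Real.sqrt π * (I + ε) * Q = Real.sqrt π * (I + ε / 5) * Q +
      Real.sqrt π * (4 * (ε / 5)) * Q := by ring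
  rw [e4]
  linarith

end Pool.Agent.H7.AE
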