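import Pool.Agent.H7.AE.Shp
import Pool.Agent.H7.FF.Tst

/-! Windows of one length. -/

open MeasureTheory Filter Topology Real
open scoped ENNReal

namespace Pool.Agent.H7.AE

open Pool.Agent.H7.PS Pool.Agent.H7.LH Pool.Agent.H7.AC Pool.Agent.H7.FF

/-- the hypothesis for the windows of one length, and the initial windows -/
def HP (ℓ : ℝ) : Prop := ∀ a b : ℝ, 1 ≤ a → a < b → (b = a + ℓ ∨ (a = 1 ∧ b ≤ 1 + ℓ)) →
  ∀ ε : ℝ, 0 < ε → ∀ᶠ T : ℝ in atTop,
  Wn a b T ≤ ENNReal.ofReal ((b - a + ε) * (Real.log T ^ 2 / T))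

lemma HP.toRW {ℓ : ℝ} (hℓ : 0 < ℓ) (h : HP ℓ) : RW := by
  intro b hb
  have hc := cC_one
  obtain ⟨N, hN⟩ := exists_nat_gt ((b - 1) / ℓ)
  have hN0 : (0 : ℝ) ≤ N := Nat.cast_nonneg N
  have hNb : b ≤ 1 + N * ℓ := by
    rw [div_lt_iff₀ hℓ] at hN
    linarith
  refine ⟨2 * cC * (1 - 0 + 1) + N * (ℓ + 1), by positivity, ?_⟩
  have hw : ∀ᶠ T : ℝ in atTop, ∀ j ∈ Finset.range N,
      Wn (1 + j * ℓ) (1 + ((j + 1 : ℕ) : ℝ) * ℓ) T ≤
      ENNReal.ofReal ((ℓ + 1) * (Real.log T ^ 2 / T)) := by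
    refine (Filter.eventually_all_finset _).2 fun j hj => ?_
    have hj0 : (0 : ℝ) ≤ j := Nat.cast_nonneg j
    have e : 1 + ((j + 1 : ℕ) : ℝ) * ℓ = 1 + j * ℓ + ℓ := by push_cast; ring
    rw [e]
    have h1 := h (1 + j * ℓ) (1 + j * ℓ + ℓ) (by nlinarith) (by linarith) (Or.inl rfl) 1 one_pos
    filter_upwards [h1] with T h2
    refine h2.trans (le_of_eq ?_)
    congr 2
    ring
  filter_upwards [near 0 1 le_rfl one_pos le_rfl 1 one_pos, hw, eventually_gt_atTop 1]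
    with T h1 h2 hT
  have hL : 0 < Real.log T := Real.log_pos hT
  have hTp : 0 < T := by linarith
  have h3 : Wn 1 b T ≤ ENNReal.ofReal (N * ((ℓ + 1) * (Real.log T ^ 2 / T))) := by
    have hmono : Monotone fun j : ℕ => (1 + j * ℓ) * Real.log T := by
      refine monotone_nat_of_le_succ fun j => ?_
      refine mul_le_mul_of_nonneg_right ?_ hL.le
      push_cast
      linarith
    have h4 := split_Ioc hmono (fun v => qd (v, Real.log (1 + 1 / T))) N
    simp only [Nat.cast_zero, zero_mul, add_zero] at h4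
    have h5 : Wn 1 b T ≤ ∫⁻ v in Set.Ioc (1 * Real.log T) ((1 + N * ℓ) * Real.log T),
        qd (v, Real.log (1 + 1 / T)) := by
      unfold Wn
      exact lintegral_mono_set (Set.Ioc_subset_Ioc_right (mul_le_mul_of_nonneg_right hNb hL.le))
    refine h5.trans (h4.trans ((Finset.sum_le_sum h2).trans ?_))
    rw [Finset.sum_const, Finset.card_range, nsmul_eq_mul, ← ENNReal.ofReal_natCast,
      ← ENNReal.ofReal_mul hN0]
  refine (Wn_split b T).trans ((add_le_add h1 h3).trans (le_of_eq ?_))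
  rw [← ENNReal.ofReal_add (by positivity) (by positivity)]
  congr 1
  ring

lemma win_meas {ℓ L : ℝ} {q : ℝ → ℝ≥0∞} (hq : Measurable q) :
    Measurable fun c : ℝ => ∫⁻ v in Set.Ioc ((c - ℓ / 2) * L) ((c + ℓ / 2) * L), q v := by
  have e : (fun c : ℝ => ∫⁻ v in Set.Ioc ((c - ℓ / 2) * L) ((c + ℓ / 2) * L), q v) =
      fun c => ∫⁻ v, ({p : ℝ × ℝ | (p.1 - ℓ / 2) * L < p.2 ∧ p.2 ≤ (p.1 + ℓ / 2) * L}.indicator
        (fun p => q p.2)) (c, v) := by
    funext c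
    rw [← lintegral_indicator measurableSet_Ioc]
    refine lintegral_congr fun v => ?_
    by_cases hv : v ∈ Set.Ioc ((c - ℓ / 2) * L) ((c + ℓ / 2) * L)
    · rw [Set.indicator_of_mem hv, Set.indicator_of_mem (show (c, v) ∈
        {p : ℝ × ℝ | (p.1 - ℓ / 2) * L < p.2 ∧ p.2 ≤ (p.1 + ℓ / 2) * L} from hv)]
    · rw [Set.indicator_of_notMem hv, Set.indicator_of_notMem (show (c, v) ∉
        {p : ℝ × ℝ | (p.1 - ℓ / 2) * L < p.2 ∧ p.2 ≤ (p.1 + ℓ / 2) * L} from hv)]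
  rw [e]
  refine Measurable.lintegral_prod_right' ?_
  refine (hq.comp measurable_snd).indicator ?_
  exact (measurableSet_lt (f := fun p : ℝ × ℝ => (p.1 - ℓ / 2) * L) (g := fun p : ℝ × ℝ => p.2)
    (by fun_prop) (by fun_prop)).inter
    (measurableSet_le (f := fun p : ℝ × ℝ => p.2) (g := fun p : ℝ × ℝ => (p.1 + ℓ / 2) * L)
    (by fun_prop) (by fun_prop))

/-- exchange of the integrals -/
lemma ton {ℓ L : ℝ} (hL : 0 < L) (hℓ : 0 < ℓ) {ψ : ℝ → ℝ} (hψ : Continuous ψ)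
    (hψ0 : ∀ x, 0 ≤ ψ x) {q : ℝ → ℝ≥0∞} (hq : Measurable q) :
    ∫⁻ v, ENNReal.ofReal (bx ℓ ψ (v / L)) * q v =
    ∫⁻ c, ENNReal.ofReal (ψ c) *
      ∫⁻ v in Set.Ioc ((c - ℓ / 2) * L) ((c + ℓ / 2) * L), q v := by
  obtain ⟨F, hF⟩ : ∃ F : ℝ → ℝ → ℝ≥0∞, F = fun v c =>
      ({p : ℝ × ℝ | p.1 / L - ℓ / 2 ≤ p.2 ∧ p.2 < p.1 / L + ℓ / 2}.indicator
        (fun p => ENNReal.ofReal (ψ p.2) * q p.1)) (v, c) := ⟨_, rfl⟩
  have hFm : Measurable (Function.uncurry F) := by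
    rw [hF]
    refine Measurable.indicator ?_ ?_
    · exact ((hψ.measurable.comp measurable_snd).ennreal_ofReal).mul (hq.comp measurable_fst)
    · exact (measurableSet_le (f := fun p : ℝ × ℝ => p.1 / L - ℓ / 2)
        (g := fun p : ℝ × ℝ => p.2) (by fun_prop) (by fun_prop)).inter
        (measurableSet_lt (f := fun p : ℝ × ℝ => p.2)
        (g := fun p : ℝ × ℝ => p.1 / L + ℓ / 2) (by fun_prop) (by fun_prop))
  have e1 : ∀ v, ENNReal.ofReal (bx ℓ ψ (v / L)) * q v = ∫⁻ c, F v c := by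
    intro v
    have e2 : ∀ c, F v c = (Set.Ico (v / L - ℓ / 2) (v / L + ℓ / 2)).indicator
        (fun c => ENNReal.ofReal (ψ c) * q v) c := by
      intro c
      rw [hF]
      by_cases hc : c ∈ Set.Ico (v / L - ℓ / 2) (v / L + ℓ / 2)
      · rw [Set.indicator_of_mem hc]
        exact Set.indicator_of_mem (show (v, c) ∈
          {p : ℝ × ℝ | p.1 / L - ℓ / 2 ≤ p.2 ∧ p.2 < p.1 / L + ℓ / 2} from hc) _
      · rw [Set.indicator_of_notMem hc]
        exact Set.indicator_of_notMem (show (v, c) ∉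
          {p : ℝ × ℝ | p.1 / L - ℓ / 2 ≤ p.2 ∧ p.2 < p.1 / L + ℓ / 2} from hc) _
    simp_rw [e2]
    rw [lintegral_indicator measurableSet_Ico, lintegral_mul_const _
      (hψ.measurable.ennreal_ofReal)]
    congr 1
    unfold bx
    rw [intervalIntegral.integral_of_le (by linarith), integral_Ioc_eq_integral_Ioo,
      ← integral_Ico_eq_integral_Ioo, ofReal_integral_eq_lintegral_ofReal
      (hψ.integrableOn_Icc.mono_set Set.Ico_subset_Icc_self) (Eventually.of_forall hψ0)]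
  have e3 : ∀ c, ENNReal.ofReal (ψ c) *
      ∫⁻ v in Set.Ioc ((c - ℓ / 2) * L) ((c + ℓ / 2) * L), q v = ∫⁻ v, F v c := by
    intro c
    have e4 : ∀ v, F v c = (Set.Ioc ((c - ℓ / 2) * L) ((c + ℓ / 2) * L)).indicator
        (fun v => ENNReal.ofReal (ψ c) * q v) v := by
      intro v
      have hiff : (v / L - ℓ / 2 ≤ c ∧ c < v / L + ℓ / 2) ↔
          v ∈ Set.Ioc ((c - ℓ / 2) * L) ((c + ℓ / 2) * L) := by
        constructor
        · rintro ⟨h1, h2⟩
          refine ⟨?_, ?_⟩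
          · have : c - ℓ / 2 < v / L := by linarith
            exact (lt_div_iff₀ hL).1 this
          · have : v / L ≤ c + ℓ / 2 := by linarith
            exact (div_le_iff₀ hL).1 this
        · rintro ⟨h1, h2⟩
          have h3 := (lt_div_iff₀ hL).2 h1
          have h4 := (div_le_iff₀ hL).2 h2
          exact ⟨by linarith, by linarith⟩
      rw [hF]
      by_cases hc : v ∈ Set.Ioc ((c - ℓ / 2) * L) ((c + ℓ / 2) * L)
      · rw [Set.indicator_of_mem hc]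
        exact Set.indicator_of_mem (show (v, c) ∈
          {p : ℝ × ℝ | p.1 / L - ℓ / 2 ≤ p.2 ∧ p.2 < p.1 / L + ℓ / 2} from hiff.2 hc) _
      · rw [Set.indicator_of_notMem hc]
        exact Set.indicator_of_notMem (show (v, c) ∉
          {p : ℝ × ℝ | p.1 / L - ℓ / 2 ≤ p.2 ∧ p.2 < p.1 / L + ℓ / 2} from
          fun h => hc (hiff.1 h)) _
    simp_rw [e4]
    rw [lintegral_indicator measurableSet_Ioc, lintegral_const_mul' _ _ ENNReal.ofReal_ne_top]
  simp_rw [e1, e3]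
  exact lintegral_lintegral_swap hFm.aemeasurable

end Pool.Agent.H7.AE
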