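import Pool.Agent.H7.AE.Shp

/-! The upper bound for the mixtures, for one test function. -/

open MeasureTheory Filter Topology Real
open scoped ENNReal ContDiff

namespace Pool.Agent.H7.AE

open H370 TH803TW Pool.Agent.Y744 Pool.Agent.Y744.ANC Pool.Agent.H7.FF Pool.Agent.H7.PS
open Pool.Agent.H7.LH Pool.Agent.H7.AC
open Pool.Agent.Results.MP_103a5c_nt.BohrSetPairs

/-- the upper bound for the mixtures, for one test function -/
def ZK (K : ℝ → ℝ) (I : ℝ) : Prop := ∀ c : ℝ, 0 < c → ∀ δ : ℝ, 0 < δ → ∀ᶠ T : ℝ in atTop,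
      ∫⁻ τ in Set.Ioi (0 : ℝ), ENNReal.ofReal (kc c τ) * Zu K T τ ≤
      ENNReal.ofReal (π * Real.sqrt π / 2 * (c * T * Real.log T ^ 2) * (I + δ))

theorem toZK (h : RW) {κ M D I : ℝ} {K : ℝ → ℝ} (hS : SB κ K I) (hI0 : 0 ≤ I)
    (hK : WK κ M D K) (hM : 0 ≤ M) (hκ : 1 ≤ κ) : ZK K I := by
  intro c hc δ hδ
  obtain ⟨η, hη, hη2⟩ : ∃ η : ℝ, 0 < η ∧ (1 + η) * (I + δ / 4) ≤ I + δ / 2 := by
    refine ⟨δ / 4 / (I + δ / 4), by positivity, le_of_eq ?_⟩
    have : I + δ / 4 ≠ 0 := by positivity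
    field_simp
    ring
  have hpi := Real.pi_pos
  have hspi : 0 < Real.sqrt π := by positivity
  have hc2 : 0 < c / 2 := by positivity
  obtain ⟨C', hC', h1⟩ := jf_rough h hK hM hκ hc2
  have h0 := jf_sharp h hS hI0 hK hM hκ hc (show 0 < δ / 4 by positivity)
  have t1 : Tendsto (fun T : ℝ => 2 * (1 + 1 / η) * (C' / (c / 2 * T) ^ 2)) atTop
      (𝓝 (2 * (1 + 1 / η) * 0)) := by
    refine Tendsto.const_mul _ (tendsto_const_nhds.div_atTop ?_)
    exact (tendsto_pow_atTop two_ne_zero).comp (tendsto_id.const_mul_atTop hc2)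
  rw [mul_zero] at t1
  filter_upwards [h0, h1, (tendsto_order.1 t1).2 (Real.sqrt π * (δ / 2)) (by positivity),
    eventually_gt_atTop 1] with T h0 h1 ht hT1
  have hT0 : 0 < T := by linarith
  have hR : 0 < c * T := by positivity
  obtain ⟨k, hk⟩ : ∃ k, k = kT K T := ⟨_, rfl⟩
  have hkm : Measurable k := by rw [hk]; exact kT_meas hK T
  have hf : Measurable fun t : ℝ => ∫⁻ u in Set.Ioi (0 : ℝ), k u * PH (u, t) := by
    have m1 : Measurable fun p : ℝ × ℝ => k p.2 * PH (p.2, p.1) :=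
      (hkm.comp measurable_snd).mul (PH_meas.comp (measurable_snd.prodMk measurable_fst))
    exact m1.lintegral_prod_right'
  have hm := tau_mix hc hT0 hf
  have hm' : ∫⁻ τ in Set.Ioi (0 : ℝ), ENNReal.ofReal (kc c τ) * Zu K T τ =
      ∫⁻ y in Set.Ioc (1 / 2 : ℝ) 1, ENNReal.ofReal (c * T / (2 * y ^ 2)) *
        ∫⁻ t in Set.Ioi (0 : ℝ), ENNReal.ofReal (2 * (c * T / y) / ((c * T / y) ^ 2 + t ^ 2)) *
          ∫⁻ u in Set.Ioi (0 : ℝ), k u * PH (u, t) := by
    rw [← hm, hk]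
    rfl
  rw [hm']
  obtain ⟨W, hW⟩ : ∃ W, W = π * Real.sqrt π * Real.log T ^ 2 * (I + δ) := ⟨_, rfl⟩
  have hW0 : 0 ≤ W := by rw [hW]; positivity
  have hy : ∀ y ∈ Set.Ioc (1 / 2 : ℝ) 1, ENNReal.ofReal (c * T / (2 * y ^ 2)) *
        ∫⁻ t in Set.Ioi (0 : ℝ), ENNReal.ofReal (2 * (c * T / y) / ((c * T / y) ^ 2 + t ^ 2)) *
          ∫⁻ u in Set.Ioi (0 : ℝ), k u * PH (u, t) ≤
        ENNReal.ofReal (c * T / (2 * y ^ 2)) * ENNReal.ofReal W := by
    intro y hy
    have hy0 : 0 < y := by linarith [hy.1]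
    obtain ⟨S, hS⟩ : ∃ S, S = c * T / y := ⟨_, rfl⟩
    have hS1 : c * T ≤ S := by
      rw [hS, le_div_iff₀ hy0]
      exact mul_le_of_le_one_right hR.le hy.2
    have hS2 : S ≤ 2 * (c * T) := by
      rw [hS, div_le_iff₀ hy0]
      nlinarith [hy.1]
    have hS0 : 0 < S := by linarith
    refine mul_le_mul_right ?_ _
    rw [← hS]
    refine (ker_in (η := η) hkm PH_meas fun u => PH_bound hS0 hη u).trans ?_
    have g0 := h0 S hS1 hS2
    have g1 := h1 (S / 2) (by linarith) (by linarith)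
    rw [← hk] at g0 g1
    refine (mul_le_mul_right (add_le_add (mul_le_mul_right g0 _) (mul_le_mul_right g1 _)) _).trans ?_
    rw [← ENNReal.ofReal_mul (by positivity), ← ENNReal.ofReal_mul (by positivity),
      ← ENNReal.ofReal_add (by positivity) (by positivity), ← ENNReal.ofReal_mul hpi.le]
    refine ENNReal.ofReal_le_ofReal ?_
    have e1 : (1 + η) * S ^ 2 * (Real.sqrt π * (I + δ / 4) * Real.log T ^ 2 / S ^ 2) =
        Real.sqrt π * Real.log T ^ 2 * ((1 + η) * (I + δ / 4)) := by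
      field_simp
    have e2 : 2 * (1 + 1 / η) * (C' * Real.log T ^ 2 / (S / 2) ^ 2) ≤
        Real.sqrt π * (δ / 2) * Real.log T ^ 2 := by
      have h3 : C' / (S / 2) ^ 2 ≤ C' / (c / 2 * T) ^ 2 := by
        refine div_le_div_of_nonneg_left hC' (by positivity) ?_
        exact pow_le_pow_left₀ (by positivity) (by linarith) 2
      calc 2 * (1 + 1 / η) * (C' * Real.log T ^ 2 / (S / 2) ^ 2) =
          2 * (1 + 1 / η) * (C' / (S / 2) ^ 2) * Real.log T ^ 2 := by ring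
        _ ≤ 2 * (1 + 1 / η) * (C' / (c / 2 * T) ^ 2) * Real.log T ^ 2 := by gcongr
        _ ≤ _ := mul_le_mul_of_nonneg_right ht.le (by positivity)
    rw [e1]
    have e3 : Real.sqrt π * Real.log T ^ 2 * ((1 + η) * (I + δ / 4)) ≤
        Real.sqrt π * Real.log T ^ 2 * (I + δ / 2) := mul_le_mul_of_nonneg_left hη2 (by positivity)
    calc π * (Real.sqrt π * Real.log T ^ 2 * ((1 + η) * (I + δ / 4)) +
        2 * (1 + 1 / η) * (C' * Real.log T ^ 2 / (S / 2) ^ 2)) ≤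
        π * (Real.sqrt π * Real.log T ^ 2 * (I + δ / 2) +
          Real.sqrt π * (δ / 2) * Real.log T ^ 2) :=
          mul_le_mul_of_nonneg_left (add_le_add e3 e2) hpi.le
      _ = W := by rw [hW]; ring
  refine (setLIntegral_mono' measurableSet_Ioc hy).trans ?_
  rw [lintegral_mul_const' _ _ ENNReal.ofReal_ne_top, y_mass hR.le,
    ← ENNReal.ofReal_mul (by positivity)]
  refine ENNReal.ofReal_le_ofReal ?_
  rw [hW]
  have h3 : c * T / 2 * (π * Real.sqrt π * Real.log T ^ 2 * (I + δ)) =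
      π * Real.sqrt π / 2 * (c * T * Real.log T ^ 2) * (I + δ) := by ring
  rw [h3]

end Pool.Agent.H7.AE
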